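import Mathlib

/-! The factorization of a polynomial into powers of separable polynomials without common roots. -/

set_option autoImplicit false

open Polynomial UniqueFactorizationMonoid

namespace Pool.Agent.Q298.EF

open Classical in
/-- The sum over the roots `b` of `G` in an algebraic closure, of multiplicity `μ b`, of
`1 - gcd (m, μ b) / m`, plus `1 - gcd (m, deg G) / m`. -/
noncomputable def wgt {F : Type} [Field F] (m : ℕ) (G : F[X]) : ℚ :=
  ∑ p ∈ (normalizedFactors G).toFinset,
    (p.natDegree : ℚ) * (1 - (m.gcd ((normalizedFactors G).count p) : ℚ) / m) +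
      (1 - (m.gcd G.natDegree : ℚ) / m)

theorem exists_fac {F : Type} [Field F] [CharZero F] {G : F[X]} (hG : G ≠ 0) :
    ∃ (s : ℕ) (g : Fin s → F[X]) (a : Fin s → ℕ), (∏ k, g k).Separable ∧
      G = C G.leadingCoeff * ∏ k, g k ^ a k ∧
      ∀ m : ℕ, ∑ k, ((g k).natDegree : ℚ) * (1 - (m.gcd (a k) : ℚ) / m) +
        (1 - (m.gcd (∑ k, a k * (g k).natDegree) : ℚ) / m) = wgt m G := by
  classical
  obtain ⟨T, hT⟩ : ∃ T : Finset F[X], T = (normalizedFactors G).toFinset := ⟨_, rfl⟩
  let φ := T.equivFin.symm
  have hmT : ∀ p ∈ T, p ∈ normalizedFactors G := fun p hp => by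
    rw [hT, Multiset.mem_toFinset] at hp
    exact hp
  have hmem : ∀ k, ((φ k : T) : F[X]) ∈ normalizedFactors G := fun k => hmT _ (φ k).2
  have hirr : ∀ k, Irreducible ((φ k : T) : F[X]) := fun k =>
    irreducible_of_normalized_factor _ (hmem k)
  have hsum : ∀ f : F[X] → ℚ, ∑ k, f ((φ k : T) : F[X]) = ∑ p ∈ T, f p := by
    intro f
    rw [← Finset.sum_coe_sort T f]
    exact Equiv.sum_comp φ fun p : T => f p
  have hprod : ∏ k, ((φ k : T) : F[X]) ^ (normalizedFactors G).count ((φ k : T) : F[X]) =
      (normalizedFactors G).prod := by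
    rw [Finset.prod_multiset_count, ← hT, ← Finset.prod_coe_sort T
      (fun p => p ^ (normalizedFactors G).count p)]
    exact Equiv.prod_comp φ fun p : T => (p : F[X]) ^ (normalizedFactors G).count (p : F[X])
  have hfac : G = C G.leadingCoeff * ∏ k, ((φ k : T) : F[X]) ^
      (normalizedFactors G).count ((φ k : T) : F[X]) := by
    rw [hprod]
    exact (leadingCoeff_mul_prod_normalizedFactors G).symm
  refine ⟨T.card, fun k => ((φ k : T) : F[X]), fun k => (normalizedFactors G).count
    ((φ k : T) : F[X]), ?_, hfac, fun m => ?_⟩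
  · refine separable_prod (fun i j hij => ?_) fun k => (hirr k).separable
    change IsCoprime ((φ i : T) : F[X]) ((φ j : T) : F[X])
    rw [(hirr i).coprime_iff_not_dvd]
    intro hd
    have h1 := (hirr i).associated_of_dvd (hirr j) hd
    have h2 : normalize ((φ i : T) : F[X]) = normalize ((φ j : T) : F[X]) :=
      normalize_eq_normalize_iff_associated.2 h1
    rw [normalize_normalized_factor _ (hmem i), normalize_normalized_factor _ (hmem j)] at h2
    exact hij (φ.injective (Subtype.ext h2))
  · have hdeg : ∑ k, (normalizedFactors G).count ((φ k : T) : F[X]) *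
        ((φ k : T) : F[X]).natDegree = G.natDegree := by
      conv_rhs => rw [hfac]
      rw [natDegree_C_mul (leadingCoeff_ne_zero.2 hG), natDegree_prod _ _ fun k _ =>
        pow_ne_zero _ (hirr k).ne_zero]
      exact Finset.sum_congr rfl fun k _ => (natDegree_pow _ _).symm
    rw [hdeg, hsum (fun p => (p.natDegree : ℚ) *
      (1 - (m.gcd ((normalizedFactors G).count p) : ℚ) / m)), hT]
    rfl

end Pool.Agent.Q298.EF
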