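import Pool.Agent.Q298.EF.CycPair
import Pool.Agent.Q298.EF.Fac

/-! Fibrations whose geometric generic fibre is a product of superelliptic curves. -/

set_option autoImplicit false
set_option linter.overlappingInstances false
set_option linter.unusedSectionVars false

open FF Pool.Agent.W602.GT Pool.Agent.W603.LV Pool.Agent.W619.PQ
open Pool.Agent.Y172 Pool.Agent.TH585.SV Pool.Agent.Y191

namespace Pool.Agent.Q298.EF

section

variable {K K' : Type} [Field K] [Field K'] [Algebra ℂ K] [Algebra ℂ K'] [Algebra K K']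
  [IsScalarTower ℂ K K'] {e : ℕ} {L : IntermediateField ℂ K}

/-- the data of the cyclic covers -/
theorem cyc_data {x z : Fin e → K'} (hx : IsTranscendenceBasis (upF K' L) x) {m : Fin e → ℕ}
    (hm : ∀ j, 1 ≤ m j) {G : Fin e → Polynomial (acl ℂ (upF K' L : Set K'))} (hG : ∀ j, G j ≠ 0)
    (heq : ∀ j, z j ^ m j = Polynomial.aeval (x j) (G j))
    (hgen : IntermediateField.adjoin ℂ
      ((acl ℂ (upF K' L : Set K') : Set K') ∪ Set.range x ∪ Set.range z) = ⊤) :
    ∃ (s : Fin e → ℕ) (g : ∀ j, Fin (s j) → Polynomial (acl ℂ (upF K' L : Set K')))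
      (a : ∀ j, Fin (s j) → ℕ) (c : Fin e → K'),
      CycData (acl ℂ (upF K' L : Set K')) x z m s g a c ∧
        ∀ j, wsum m s g a j = wgt (m j) (G j) := by
  classical
  have hch : CharZero (acl ℂ (upF K' L : Set K')) :=
    charZero_of_injective_algebraMap (algebraMap ℂ (acl ℂ (upF K' L : Set K'))).injective
  choose s g a hsep hfac hw using fun j => exists_fac (hG j)
  refine ⟨s, g, a, fun j => ((G j).leadingCoeff : K'), ⟨basis_acl hx, hm, hsep, fun j =>
    ⟨(G j).leadingCoeff.2, ?_⟩, fun j => ?_, hgen⟩, fun j => ?_⟩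
  · intro h0
    exact hG j (Polynomial.leadingCoeff_eq_zero.1 (Subtype.ext h0))
  · rw [heq j]
    conv_lhs => rw [hfac j]
    rw [map_mul, Polynomial.aeval_C, map_prod]
    congr 1
    exact Finset.prod_congr rfl fun k _ => by rw [map_pow]
  · unfold wsum wtc
    exact hw j (m j)

/-- **The lower bound**: forms along the fibres. -/
theorem cycg_low [FiniteDimensional K K'] {N lam : ℕ} (hLK : Algebra.trdeg L K = e) {α : K'}
    (hα : IsAlgebraic (upF K' L) α) (htop : ∀ z : K', ∃ p : Polynomial K, z = Polynomial.aeval α p)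
    {x z : Fin e → K'} {m s : Fin e → ℕ}
    {g : ∀ j, Fin (s j) → Polynomial (acl ℂ (upF K' L : Set K'))}
    {a : ∀ j, Fin (s j) → ℕ} {c : Fin e → K'}
    (h : CycData (acl ℂ (upF K' L : Set K')) x z m s g a c)
    (hw : ∀ j, 2 ≤ wsum m s g a j) {κ : Fin lam → Fin e} (hκ : Function.Injective κ)
    (hκs : ∀ i, 2 < wsum m s g a (κ i)) (X : Set (Place ℂ K)) :
    ∃ M : ℕ, 0 < M ∧ ∃ θ : Fin (lam + 1) → (Fin e → Derivation L K K) → K,
      (∀ b, FibSec N M X (fun _ => 0) L (θ b)) ∧ ∃ G, θ 0 G ≠ 0 ∧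
        AlgebraicIndependent L (fun i : Fin lam => θ i.succ G / θ 0 G) := by
  obtain ⟨M, hM, θ', hθ', hne⟩ := cyc_low (N := N) h hw hκ hκs {Q | ∃ P ∈ X, ∃ ε, Over Q P ε}
  exact push hM hLK hα htop hθ' hne

end

section

variable {K K' : Type} [Field K] [Field K'] [Algebra ℂ K] [Algebra ℂ K'] [Algebra K K']
  [IsScalarTower ℂ K K'] [FiniteDimensional K K'] {d e k q N : ℕ}

theorem cycg_main (hd : 1 ≤ d) {y : Fin (N + 1) → K} {Δ : Place ℂ K → ℚ} (hy : NormalModel y)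
    (hK : Algebra.trdeg ℂ K = (d + e : ℕ)) (hΔ : Effective y Δ)
    {V : Submodule ℂ K} (hn : Module.finrank ℂ V = d + k + 1)
    (hV : Algebra.trdeg ℂ (rf V) = d)
    {φ : Fin q → K} (hφ0 : ∀ i, φ i ≠ 0) (hφ : Submodule.span ℂ (Set.range φ) = V)
    (hγ : ¬ ∃ V1 V2 : Submodule ℂ K, V1 ≠ ⊥ ∧ V2 ≠ ⊥ ∧ Disjoint V1 V2 ∧ V1 ⊔ V2 = V ∧
      ∀ i, φ i ∈ V1 ∨ φ i ∈ V2)
    {R : ℕ} (hR : R = d + k + 2 ∨
      ((∃ τ : Fin (d + k + 3) → Fin q, ∀ i j, i ≠ j → ∀ t : ℂ, φ (τ i) ≠ t • φ (τ j)) ∧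
        R = d + k + 1)) {σ : ℚ}
    (hσ : (R * ((k + 1) * (k + 2)) : ℚ) < 2 * σ)
    (h : ∀ P, IsPrimeDivisor y P → ∀ a : ℤ, (∀ f ∈ V, f = 0 ∨ a ≤ P.ord f) →
      (∃ f ∈ V, f ≠ 0 ∧ P.ord f = a) → (∃ i, P.ord (φ i) ≠ a) →
      ∃ i, σ * (1 - Δ P) ≤ ((P.ord (φ i) - a : ℤ) : ℚ))
    (hdisc : ∀ Q : Place ℂ K, Divisorial (d + e) Q → (∀ f ∈ rf V, f ≠ 0 → Q.ord f = 0) →
      LogDisc y (d + e) Δ Q 1)
    {α : K'} (hα : IsAlgebraic (upF K' (rf V)) α)
    (htop : ∀ z : K', ∃ p : Polynomial K, z = Polynomial.aeval α p)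
    {x z : Fin e → K'} (hx : IsTranscendenceBasis (upF K' (rf V)) x) {m : Fin e → ℕ}
    (hm : ∀ j, 1 ≤ m j) {G : Fin e → Polynomial (acl ℂ (upF K' (rf V) : Set K'))}
    (hG : ∀ j, G j ≠ 0) (heq : ∀ j, z j ^ m j = Polynomial.aeval (x j) (G j))
    (hgen : IntermediateField.adjoin ℂ
      ((acl ℂ (upF K' (rf V) : Set K') : Set K') ∪ Set.range x ∪ Set.range z) = ⊤) :
    ((∃ j, wgt (m j) (G j) < 2) → kodairaDim y (d + e) Δ = ⊥ ∧
      ∀ A, Effective y A → numericalDim y (d + e) Δ A = ⊥) ∧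
    ((∀ j, 2 ≤ wgt (m j) (G j)) →
      kodairaDim y (d + e) Δ =
        ((d + (Finset.univ.filter fun j => 2 < wgt (m j) (G j)).card : ℕ) : WithBot ℕ) ∧
      ∀ A, Effective y A → Integral y A → numericalDim y (d + e) Δ A =
        ((d + (Finset.univ.filter fun j => 2 < wgt (m j) (G j)).card : ℕ) : EReal)) := by
  classical
  obtain ⟨s, g, a, c, hc, hw⟩ := cyc_data hx hm hG heq hgen
  have hLK : Algebra.trdeg (rf V) K = e := by
    have h1 := _root_.trdeg_add_eq ℂ (rf V) (A := K)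
    rw [hV, hK] at h1
    push_cast at h1
    exact Cardinal.eq_of_add_eq_add_left h1 Cardinal.natCast_lt_aleph0
  obtain ⟨h1, h2⟩ := cycp_ab (K := K) hy hK hΔ (acl_closed (upF K' (rf V) : Set K')) hc
    (fun P hP htr => hdisc _ (divisorial_down (over_bel K P) hP) fun f hf hf0 => by
      have h3 : algebraMap K K' f ∈ acl ℂ (upF K' (rf V) : Set K') :=
        subset_acl _ (mem_upF.2 ⟨f, hf, rfl⟩)
      have h4 := htr _ h3 (by rwa [Ne, map_eq_zero])
      rw [(over_bel K P).2] at h4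
      rcases mul_eq_zero.1 h4 with h5 | h5
      · have h6 := (over_bel K P).1
        omega
      · exact h5)
  simp only [hw] at h1 h2
  refine ⟨h1, fun hws => ?_⟩
  obtain ⟨κ, hκ, hκs⟩ : ∃ κ : Fin (Finset.univ.filter fun j => 2 < wgt (m j) (G j)).card → Fin e,
      Function.Injective κ ∧ ∀ i, 2 < wgt (m (κ i)) (G (κ i)) := by
    let ψ := (Finset.univ.filter fun j => 2 < wgt (m j) (G j)).equivFin
    exact ⟨fun i => (ψ.symm i : Fin e), fun a b hab => ψ.symm.injective (Subtype.ext hab),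
      fun i => (Finset.mem_filter.1 (ψ.symm i).2).2⟩
  obtain ⟨M, hM, θ, hθ, hne⟩ := cycg_low (N := d + e) hLK hα htop hc
    (fun j => by rw [hw]; exact hws j) hκ (fun i => by rw [hw]; exact hκs i)
    {P | IsPrimeDivisor y P}
  have hσ' : (R : ℝ) * (((k : ℝ) + 1) * ((k : ℝ) + 2)) < 2 * (σ : ℝ) := by exact_mod_cast hσ
  have hlow := lin_one hd hK hn hV hφ0 hφ hγ hR {P | IsPrimeDivisor y P}
    (fun P => (Δ P : ℝ)) (fun _ => 0) (fun P => (Δ P : ℝ))
    (fun P hP => by exact_mod_cast hΔ.1 P hP) (fun P _ => by simp) hσ'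
    (fun P hP _ a ha hb hc => by
      obtain ⟨i, hi⟩ := h P hP a ha hb hc
      refine ⟨i, ?_⟩
      exact_mod_cast hi) hM (θ := θ) hθ hne
  refine h2 _ hws ?_ hlow
  -- the numbers of the curves
  have h3 : (Finset.univ.filter fun j : Fin e => 2 < wgt (m j) (G j)).card +
      (Finset.univ.filter fun j : Fin e => wgt (m j) (G j) = 2).card = e := by
    have h4 := Finset.card_filter_add_card_filter_not (s := (Finset.univ : Finset (Fin e)))
      (fun j => 2 < wgt (m j) (G j))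
    rw [Finset.card_univ, Fintype.card_fin] at h4
    have h5 : (Finset.univ.filter fun j : Fin e => ¬ 2 < wgt (m j) (G j)) =
        Finset.univ.filter fun j : Fin e => wgt (m j) (G j) = 2 := by
      refine Finset.filter_congr fun j _ => ?_
      constructor
      · exact fun h6 => le_antisymm (not_lt.1 h6) (hws j)
      · exact fun h6 => by rw [h6]; exact lt_irrefl _
    rw [h5] at h4
    exact h4
  omega

end

end Pool.Agent.Q298.EF
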