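import Pool.Agent.Q298.EF.GeoFib

/-! Linear systems with one component: sections from sections along the fibres. -/

set_option autoImplicit false

open FF Pool.Agent.W602.GT Pool.Agent.TH585.SV

namespace Pool.Agent.Q298.EF

/-- **Kodaira dimension**, indecomposable configurations. -/
theorem lin_one {d e k q lam : ℕ} (hd : 1 ≤ d) {K : Type} [Field K]
    [Algebra ℂ K] (hK : Algebra.trdeg ℂ K = (d + e : ℕ))
    {V : Submodule ℂ K} (hn : Module.finrank ℂ V = d + k + 1)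
    (hV : Algebra.trdeg ℂ (Pool.Agent.TH585.SV.rf V) = d)
    {φ : Fin q → K} (hφ0 : ∀ i, φ i ≠ 0) (hφ : Submodule.span ℂ (Set.range φ) = V)
    (hγ : ¬ ∃ V1 V2 : Submodule ℂ K, V1 ≠ ⊥ ∧ V2 ≠ ⊥ ∧ Disjoint V1 V2 ∧ V1 ⊔ V2 = V ∧
      ∀ i, φ i ∈ V1 ∨ φ i ∈ V2)
    {R : ℕ} (hR : R = d + k + 2 ∨
      ((∃ τ : Fin (d + k + 3) → Fin q, ∀ i j, i ≠ j → ∀ t : ℂ, φ (τ i) ≠ t • φ (τ j)) ∧
        R = d + k + 1))
    (X : Set (Place ℂ K)) (δ₁ δ₂ δ : Place ℂ K → ℝ) (hδ₁ : ∀ P ∈ X, 0 ≤ δ₁ P)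
    (hδ : ∀ P ∈ X, δ₁ P + δ₂ P ≤ δ P) {s : ℝ}
    (hs : (R : ℝ) * ((k + 1) * (k + 2)) < 2 * s)
    (h : ∀ P ∈ X, Divisorial (d + e) P → ∀ a : ℤ, (∀ f ∈ V, f = 0 ∨ a ≤ P.ord f) →
      (∃ f ∈ V, f ≠ 0 ∧ P.ord f = a) → (∃ i, P.ord (φ i) ≠ a) →
      ∃ i, s * (1 - δ₁ P) ≤ ((P.ord (φ i) - a : ℤ) : ℝ))
    {m : ℕ} (hm : 0 < m)
    {θ : Fin (lam + 1) → (Fin e → Derivation (Pool.Agent.TH585.SV.rf V) K K) → K}
    (hθ : ∀ b, FibSec (d + e) m X δ₂ (Pool.Agent.TH585.SV.rf V) (θ b))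
    (hne : ∃ G, θ 0 G ≠ 0 ∧
      AlgebraicIndependent (Pool.Agent.TH585.SV.rf V) (fun i : Fin lam => θ i.succ G / θ 0 G)) :
    ∃ N : ℕ, 0 < N ∧ ∃ ω : Fin (d + lam + 1) → (Fin (d + e) → Derivation ℂ K K) → K,
      (∀ j, Pool.Agent.TH766.MC.PairSec (d + e) X δ N (ω j)) ∧
      ∃ D, ω 0 D ≠ 0 ∧
        AlgebraicIndependent ℂ (fun i : Fin (d + lam) => ω i.succ D / ω 0 D) := by
  have hfin : Module.Finite ℂ V := Module.finite_of_finrank_pos (by omega)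
  obtain ⟨-, h4⟩ := Pool.Agent.TH585.SV.lin_fib (n := d + k) (k := k) (lam := lam) (c := 1)
    (γ := fun _ => 0) hd rfl hK (V := V) hV hφ0 hφ (by
      obtain ⟨b⟩ : Nonempty (Module.Basis (Fin (d + k + 1)) ℂ V) :=
        ⟨Module.finBasisOfFinrankEq ℂ V hn⟩
      refine ⟨fun i => b i, fun _ => 0, ?_, ?_, fun j => ⟨0, Subsingleton.elim _ _⟩, fun i => ?_⟩
      · exact b.linearIndependent.map' V.subtype V.ker_subtype
      · have h3 : Set.range (fun i => ((b i : V) : K)) = V.subtype '' Set.range b := by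
          rw [← Set.range_comp]
          rfl
        rw [h3, ← Submodule.map_span, b.span_eq, Submodule.map_top, Submodule.range_subtype]
      · have h3 : (fun i => ((b i : V) : K)) '' {a | (0 : Fin 1) = 0} =
            V.subtype '' Set.range b := by
          rw [← Set.range_comp]
          ext a
          simp
        rw [h3, ← Submodule.map_span, b.span_eq, Submodule.map_top, Submodule.range_subtype,
          ← hφ]
        exact Submodule.subset_span ⟨i, rfl⟩) (by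
      rintro γ' ⟨b, g, hb, hbV, hg, hφb⟩
      exact hγ (dcp_split hb hbV hg hφb)) (R := R) (by
      rcases hR with hR | ⟨hR1, hR2⟩
      · left
        omega
      · exact Or.inr ⟨rfl, hR1, hR2⟩) X δ₁ δ₂ δ hδ₁ hδ (s := s) hs.le
    (fun P hPX hPd a ha hb hc => by
      obtain ⟨i, h5⟩ := h P hPX hPd a ha hb hc
      obtain ⟨i', h6⟩ := exists_min hφ0 hφ P ha hb
      refine ⟨i, i', rfl, ?_⟩
      rw [h6]
      exact h5) hm (θ := θ) hθ hne
  exact h4 d rfl hs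

end Pool.Agent.Q298.EF
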