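import Pool.Agent.Y191.LcRam
import Pool.Agent.Y191.CycNv
import Pool.Agent.Y191.Push2
import Pool.Agent.Q298.EF.LinOne

/-! Pairs with a generically finite cover which is a fibre product of cyclic covers of the line. -/

set_option autoImplicit false
set_option linter.overlappingInstances false
set_option linter.unusedSectionVars false

open FF MvPolynomial Pool.Agent.W602.GT Pool.Agent.W603.LV Pool.Agent.W619.PQ
open Pool.Agent.Y172 Pool.Agent.TH585.SV Pool.Agent.Y191

namespace Pool.Agent.Q298.EF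

section

variable {K K' : Type} [Field K] [Field K'] [Algebra ℂ K] [Algebra ℂ K'] [Algebra K K']
  [IsScalarTower ℂ K K'] [FiniteDimensional K K'] {N n e : ℕ}
variable {y : Fin (N + 1) → K} {Δ : Place ℂ K → ℚ} {F : IntermediateField ℂ K'}
variable {x z : Fin e → K'} {m s : Fin e → ℕ} {g : ∀ j, Fin (s j) → Polynomial F}
  {a : ∀ j, Fin (s j) → ℕ} {c : Fin e → K'}

/-- **Abundance**, abstract form. -/
theorem cycp_ab (hy : NormalModel y) (hn : Algebra.trdeg ℂ K = n) (hΔ : Effective y Δ)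
    (hF : Closed F) (h : CycData F x z m s g a c)
    (hdisc : ∀ P : Place ℂ K', Divisorial n P → (∀ f ∈ F, f ≠ 0 → P.ord f = 0) →
      LogDisc y n Δ (bel K P) 1) :
    ((∃ j, wsum m s g a j < 2) → kodairaDim y n Δ = ⊥ ∧
      ∀ A, Effective y A → numericalDim y n Δ A = ⊥) ∧
    ∀ b : ℕ, (∀ j, 2 ≤ wsum m s g a j) →
      n = b + (Finset.univ.filter fun j => wsum m s g a j = 2).card →
      KodairaGe n {P | IsPrimeDivisor y P} (fun P => (Δ P : ℝ)) b →
      kodairaDim y n Δ = (b : WithBot ℕ) ∧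
        ∀ A, Effective y A → Integral y A → numericalDim y n Δ A = (b : EReal) := by
  classical
  have hess := hy.ess
  have hess' : Algebra.EssFiniteType ℂ K' := ess_up (K := K) hess
  have hn' : Algebra.trdeg ℂ K' = n := trdeg_up (K := K) hn
  have hch : CharZero F := charZero_of_injective_algebraMap (algebraMap ℂ F).injective
  obtain ⟨X, E, hX, hE⟩ := exists_crd hn
  have hfr := crd_frame' hX hE
  have h00 : Effective y (0 : Place ℂ K → ℚ) := ⟨fun _ _ => le_rfl, by simp⟩
  obtain ⟨p, z', e', D, hFr⟩ := exists_FrF hn' hF h.bas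
  obtain ⟨Sφ, hSφ⟩ := phic_reg (x := x) (m := m) (s := s) (g := g) (a := a)
  have hram : ∀ P : Place ℂ K', (1 : ℝ) ≤ ram K P := fun P => by
    have h1 : 0 < ram K P := (over_bel K P).1
    exact_mod_cast h1
  have hfin : ∀ (P : Place ℂ K') (G : MvPolynomial (Fin e) F), Irreducible G → AdicF P x G →
      ∃ α : ℚ, LogDisc y n Δ (bel K P) α ∧
        ∀ m' : ℕ, 1 ≤ m' → (m' : ℝ) * (P.ord (aeval x G) - ram K P * α) ≤
          P.ord (phic x m s g a m') := by
    intro P G hG hP
    refine ⟨1, hdisc P (hP.divisorial hFr hG) (hP.triv hG.not_isUnit), fun m' hm' => ?_⟩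
    refine le_trans ?_ (h.cyc_fin hG hP m')
    refine mul_le_mul_of_nonneg_left ?_ (Nat.cast_nonneg _)
    have h1 := hram P
    push_cast
    linarith
  have hinf : ∀ (j : Fin e) (P : Place ℂ K') (ρ : ℕ), 1 ≤ ρ → DegF F P x {j} ρ →
      ∃ α : ℚ, LogDisc y n Δ (bel K P) α ∧
        ∀ m' : ℕ, 1 ≤ m' → (m' : ℝ) * (ρ - ram K P * α) +
          m' * ((2 - wsum m s g a j : ℚ) * ρ) ≤
          P.ord (phic x m s g a m') + m' * (ρ * (({j} : Finset (Fin e)).card + 1)) +
            ((∑ j, ∑ k, (g j k).natDegree) * ∑ i, (P.ord (x i)).natAbs : ℕ) := by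
    intro j P ρ hρ hP
    refine ⟨1, hdisc P (hP.divisorial hFr (Finset.mem_singleton_self j) hρ) ?_,
      fun m' hm' => ?_⟩
    · obtain ⟨-, h2⟩ := hP.adic hρ (Finset.mem_singleton_self j)
      exact h2.triv X_prime.irreducible.not_isUnit
    · refine le_trans ?_ (h.cyc_inf hρ hP m')
      have h1 := hram P
      have h2 : (0 : ℝ) ≤ m' := Nat.cast_nonneg _
      push_cast
      nlinarith
  constructor
  · rintro ⟨j0, hj0⟩
    have hz' : ∀ A', Effective y A' → kodairaDim y n Δ = ⊥ ∧ numericalDim y n Δ A' = ⊥ := by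
      intro A' hA'
      refine not_psef hA' fun h' => ?_
      obtain ⟨m0, hm0⟩ := cor_zero (A := A') hy hA' hn hX hE hfr hFr h.phic_ne hfin
        (Finset.mem_singleton_self j0)
        (fun P => (∑ j, ∑ k, (g j k).natDegree) * ∑ i, (P.ord (x i)).natAbs)
        (τ := ((2 - wsum m s g a j0 : ℚ) : ℝ)) (by
          have : (0 : ℚ) < 2 - wsum m s g a j0 := by linarith
          exact_mod_cast this)
        (fun P ρ hρ hP => hinf j0 P ρ hρ hP)
      obtain ⟨m', hm', s', hs', hs'0⟩ := h' m0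
      exact hs'0 (hm0 m' hm' s' hs')
    exact ⟨(hz' 0 h00).1, fun A' hA' => (hz' A' hA').2⟩
  · intro b hws hna hK
    obtain ⟨m0, hm0, ω, hω, E', h4, h5⟩ := hK
    let ι := {j : Fin e // wsum m s g a j = 2}
    have hup : ∀ A, Effective y A → ∃ C : ℕ, ∀ m : ℕ, 1 ≤ m → ∀ (r : ℕ) (f : Fin r → K),
        LinearIndependent ℂ f →
        (∀ i, ∃ ω, Pool.Agent.Y172.IsSection y n m (m • Δ + A) ω ∧
          ω E = f i) →
        r ≤ C * m ^ b := by
      intro A' hA'
      refine cor_up (ι := ι) (J := fun j => {j.1}) (l := fun j => j.1)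
        (T := Finset.univ.filter fun j => wsum m s g a j = 2) hy hΔ hA' hn hX hE hfr hFr
        h.phic_ne h.phic_lin hSφ hfin (fun j => Finset.mem_singleton_self _)
        (fun P => (∑ j, ∑ k, (g j k).natDegree) * ∑ i, (P.ord (x i)).natAbs)
        (fun j P ρ hρ hP => ?_) (fun j hj => ?_) hna
      · obtain ⟨α, hα, h7⟩ := hinf j.1 P ρ hρ hP
        refine ⟨α, hα, ?_⟩
        intro m' hm'
        have h8 := h7 m' hm'
        have h9 : (2 - wsum m s g a j.1 : ℚ) = 0 := by
          rw [j.2]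
          ring
        rw [h9, Rat.cast_zero, zero_mul, mul_zero, add_zero] at h8
        exact h8
      · exact ⟨⟨j, (Finset.mem_filter.1 hj).2⟩, Finset.mem_singleton_self _⟩
    refine dims hΔ hfr hup hm0 (ω := ω) (fun j => ⟨(hω j).1, fun P hP G hG => ?_⟩) h4 h5
    rcases (hω j).2 P hP (hP.divisorial hy hn) G hG with h6 | h6
    · exact Or.inl h6
    · right
      rw [Pi.smul_apply, nsmul_eq_mul]
      have h7 : ((-(m0 * Δ P) : ℚ) : ℝ) ≤ (((P.ord (ω j G) : ℤ) : ℚ) : ℝ) := by
        push_cast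
        exact h6
      exact_mod_cast h7

end

end Pool.Agent.Q298.EF
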