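import Pool.Agent.Q298.EF.Fib
import Pool.Agent.TH585.SV.Uni3

/-! Uniruled, or double covers of genus one. -/

set_option autoImplicit false

open FF Module Pool.Agent.W603.LV Pool.Agent.TH585.SV
open Polynomial IntermediateField

namespace Pool.Agent.Q298.EF

/-- **Dichotomy.** -/
theorem dich {e : ℕ} {K : Type} [Field K] [Algebra ℂ K] [Algebra.EssFiniteType ℂ K] {N : ℕ}
    (hK : Algebra.trdeg ℂ K = N)
    {L : IntermediateField ℂ K} {x y : Fin e → K} (hx : IsTranscendenceBasis L x)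
    {F : Fin e → K[X]} (hF0 : ∀ j, F j ≠ 0) (hFa : ∀ j i, IsAlgebraic L ((F j).coeff i))
    (hxy : ∀ j, y j ^ 2 = (F j).eval (x j))
    (hgen : adjoin ℂ ({a | IsAlgebraic L a} ∪ Set.range x ∪ Set.range y) = ⊤)
    (hd : ∀ j, (F j).natDegree ≤ 4) :
    (∃ (f : Fin e → K[X]) (c z : Fin e → K), HypData L f c x z ∧ (∀ j, (f j).natDegree ≤ 4) ∧
      adjoin ℂ ({a | IsAlgebraic L a} ∪ Set.range x ∪ Set.range z) = ⊤) ∨ Unir K N := by
  classical
  have hch : CharZero K := charZero_of_injective_algebraMap (algebraMap ℂ K).injective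
  choose c f h hc0 hca hf hfs hfa hh0 hha hF using fun j => sqf_alg L (F j) (hF0 j) (hFa j)
  by_cases hdeg : ∀ j, 3 ≤ (f j).natDegree
  · left
    have hhx : ∀ j, (h j).eval (x j) ≠ 0 := by
      intro j h0
      obtain ⟨D, hD⟩ := Pool.Agent.W602.GT.exists_der (L := L) x hx (fun i => if j = i then 1 else 0)
      have htr : ¬ IsAlgebraic (algebraicClosure L K) (x j) := by
        intro h1
        have h2 := der_alg D (h1.restrictScalars L)
        rw [hD, if_pos rfl] at h2
        exact one_ne_zero h2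
      apply htr
      obtain ⟨h₀, hh₀⟩ : ∃ h₀ : (algebraicClosure L K)[X],
          h₀.map (algebraMap (algebraicClosure L K) K) = h j := by
        refine (mem_lifts _).1 ((lifts_iff_coeff_lifts _).2 fun i => ?_)
        exact ⟨⟨(h j).coeff i, mem_algebraicClosure_iff.2 (hha j i)⟩, rfl⟩
      refine ⟨h₀, ?_, ?_⟩
      · rintro rfl
        rw [Polynomial.map_zero] at hh₀
        exact hh0 j hh₀.symm
      · rw [aeval_def, ← eval_map, hh₀]
        exact h0
    refine ⟨f, c, fun j => y j / (h j).eval (x j), fun j => ⟨hfa j, hf j, hfs j, hdeg j, hca j,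
      hc0 j, ?_⟩, fun j => ?_, ?_⟩
    · have := hhx j
      rw [div_pow, hxy, hF, eval_mul, eval_mul, eval_pow, eval_C]
      field_simp
    · have h1 := hd j
      rw [hF, natDegree_mul (mul_ne_zero (C_ne_zero.2 (hc0 j)) (hf j).ne_zero)
        (pow_ne_zero _ (hh0 j)), natDegree_C_mul (hc0 j)] at h1
      omega
    · rw [eq_top_iff, ← hgen, adjoin_le_iff]
      obtain ⟨A, hA⟩ : ∃ A : IntermediateField ℂ K,
        A = adjoin ℂ ({a | IsAlgebraic L a} ∪ Set.range x ∪
          Set.range fun j => y j / (h j).eval (x j)) := ⟨_, rfl⟩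
      rw [← hA]
      have hA1 : ∀ a, IsAlgebraic L a → a ∈ A := fun a ha => by
        rw [hA]
        exact subset_adjoin _ _ (Or.inl (Or.inl ha))
      have hA2 : ∀ j, x j ∈ A := fun j => by
        rw [hA]
        exact subset_adjoin _ _ (Or.inl (Or.inr ⟨j, rfl⟩))
      have hA3 : ∀ j, y j / (h j).eval (x j) ∈ A := fun j => by
        rw [hA]
        exact subset_adjoin _ _ (Or.inr ⟨j, rfl⟩)
      have hA4 : ∀ j, (h j).eval (x j) ∈ A := fun j => by
        rw [eval_eq_sum_range]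
        exact sum_mem fun i _ => mul_mem (hA1 _ (hha j i)) (pow_mem (hA2 j) i)
      rintro a ((ha | ⟨j, rfl⟩) | ⟨j, rfl⟩)
      · exact hA1 a ha
      · exact hA2 j
      · have h1 := mul_mem (hA3 j) (hA4 j)
        rwa [div_mul_cancel₀ _ (hhx j)] at h1
  · right
    push Not at hdeg
    obtain ⟨j₀, hj⟩ := hdeg
    exact unir_of_conic hK hx hFa hxy hgen j₀ (hc0 j₀) (hca j₀) (hf j₀) (hfa j₀) (hh0 j₀)
      (hha j₀) (hF j₀) (by omega)

/-- a configuration without splitting -/
theorem dcp_split {K : Type} [Field K] [Algebra ℂ K] {n q : ℕ} {V : Submodule ℂ K}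
    {φ : Fin q → K} {γ : Fin q → Fin 2} {x : Fin (n + 1) → K} {g : Fin (n + 1) → Fin 2}
    (hx : LinearIndependent ℂ x) (hV : Submodule.span ℂ (Set.range x) = V)
    (hg : Function.Surjective g) (h : ∀ i, φ i ∈ Submodule.span ℂ (x '' {a | g a = γ i})) :
    ∃ V1 V2 : Submodule ℂ K, V1 ≠ ⊥ ∧ V2 ≠ ⊥ ∧ Disjoint V1 V2 ∧ V1 ⊔ V2 = V ∧
      ∀ i, φ i ∈ V1 ∨ φ i ∈ V2 := by
  refine ⟨Submodule.span ℂ (x '' {a | g a = 0}), Submodule.span ℂ (x '' {a | g a = 1}), ?_, ?_,
    ?_, ?_, fun i => ?_⟩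
  · obtain ⟨a, ha⟩ := hg 0
    intro h0
    have h1 : x a ∈ Submodule.span ℂ (x '' {a | g a = 0}) := Submodule.subset_span ⟨a, ha, rfl⟩
    rw [h0, Submodule.mem_bot] at h1
    exact hx.ne_zero a h1
  · obtain ⟨a, ha⟩ := hg 1
    intro h0
    have h1 : x a ∈ Submodule.span ℂ (x '' {a | g a = 1}) := Submodule.subset_span ⟨a, ha, rfl⟩
    rw [h0, Submodule.mem_bot] at h1
    exact hx.ne_zero a h1
  · refine hx.disjoint_span_image ?_
    rw [Set.disjoint_left]
    intro a h0 h1
    have h2 : (0 : Fin 2) = 1 := (show g a = 0 from h0) ▸ (show g a = 1 from h1)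
    exact absurd h2 (by decide)
  · rw [← Submodule.span_union, ← Set.image_union]
    have h1 : {a | g a = 0} ∪ {a | g a = 1} = Set.univ := by
      ext a
      have h2 : ∀ b : Fin 2, b = 0 ∨ b = 1 := by decide
      simpa using h2 (g a)
    rw [h1, Set.image_univ, hV]
  · have h2 : ∀ b : Fin 2, b = 0 ∨ b = 1 := by decide
    rcases h2 (γ i) with h3 | h3
    · left
      have := h i
      rwa [h3] at this
    · right
      have := h i
      rwa [h3] at this

/-- some member has the minimal order -/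
theorem exists_min {K : Type} [Field K] [Algebra ℂ K] {q : ℕ} {V : Submodule ℂ K}
    {φ : Fin q → K} (hφ0 : ∀ i, φ i ≠ 0) (hφ : Submodule.span ℂ (Set.range φ) = V)
    (P : Place ℂ K) {a : ℤ} (ha : ∀ f ∈ V, f = 0 ∨ a ≤ P.ord f)
    (hb : ∃ f ∈ V, f ≠ 0 ∧ P.ord f = a) : ∃ i, P.ord (φ i) = a := by
  by_contra hcon
  push Not at hcon
  have h1 : ∀ i, a + 1 ≤ P.ord (φ i) := fun i => by
    have h2 := (ha (φ i) (by
      rw [← hφ]
      exact Submodule.subset_span ⟨i, rfl⟩)).resolve_left (hφ0 i)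
    have h3 := hcon i
    omega
  have h2 : ∀ f ∈ Submodule.span ℂ (Set.range φ), Ge P (a + 1) f := by
    intro f hf
    induction hf using Submodule.span_induction with
    | mem f hf =>
      obtain ⟨i, rfl⟩ := hf
      exact Or.inr (h1 i)
    | zero => exact Or.inl rfl
    | add f g _ _ ihf ihg => exact ihf.add ihg
    | smul c f _ ih =>
      rw [Algebra.smul_def]
      simpa using (Ge.const (P := P) c).mul ih
  obtain ⟨f, hf, hf0, hfa⟩ := hb
  rw [← hφ] at hf
  have h3 := (h2 f hf).resolve_left hf0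
  omega

end Pool.Agent.Q298.EF
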