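import Mathlib

/-! Subfields of finitely generated fields are finitely generated. -/

set_option autoImplicit false

open IntermediateField MvPolynomial

namespace Pool.Agent.Q298.EF

/-- linear independence over a transcendental extension -/
theorem linInd_trans {A L K : Type} [Field A] [Field L] [Field K] [Algebra A L] [Algebra A K]
    [Algebra L K] [IsScalarTower A L K] {t : Set K} (ht : AlgebraicIndependent L ((↑) : t → K))
    {ι : Type} {b : ι → L} (hb : LinearIndependent A b) :
    LinearIndependent (adjoin A t) (fun i => algebraMap L K (b i)) := by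
  classical
  open scoped algebraAdjoinAdjoin in
  rw [← LinearIndependent.iff_fractionRing (R := Algebra.adjoin A t) (K := adjoin A t)]
  rw [linearIndependent_iff']
  intro S g hg i hi
  have h1 : ∀ i, ∃ p : MvPolynomial t A, aeval ((↑) : t → K) p = (g i : K) := by
    intro i
    have h2 : (g i : K) ∈ Algebra.adjoin A (Set.range ((↑) : t → K)) := by
      rw [Subtype.range_coe]
      exact (g i).2
    rw [Algebra.adjoin_range_eq_range_aeval] at h2
    exact h2
  choose p hp using h1
  have h2 : aeval ((↑) : t → K) (∑ i ∈ S, C (b i) * (p i).map (algebraMap A L)) = 0 := by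
    rw [map_sum, ← hg]
    refine Finset.sum_congr rfl fun j _ => ?_
    rw [map_mul, aeval_C, aeval_map_algebraMap, hp, Algebra.smul_def, mul_comm]
    rfl
  have h3 : ∑ i ∈ S, C (b i) * (p i).map (algebraMap A L) = 0 :=
    (injective_iff_map_eq_zero _).1 ht _ h2
  have h4 : p i = 0 := by
    ext m
    have h5 := congrArg (coeff m) h3
    rw [coeff_sum, coeff_zero] at h5
    have h6 : ∑ i ∈ S, (coeff m (p i)) • b i = 0 := by
      rw [← h5]
      refine Finset.sum_congr rfl fun j _ => ?_
      rw [coeff_C_mul, coeff_map, Algebra.smul_def, mul_comm]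
    have h7 := linearIndependent_iff'.1 hb S _ h6 i hi
    simpa using h7
  apply Subtype.ext
  rw [← hp i, h4, map_zero]
  rfl

/-- **Subfields of finitely generated fields are finitely generated.** -/
theorem ess_sub {k L K : Type} [Field k] [Field L] [Field K] [Algebra k L] [Algebra k K]
    [Algebra L K] [IsScalarTower k L K] [Algebra.EssFiniteType k K] :
    Algebra.EssFiniteType k L := by
  classical
  obtain ⟨s, hs⟩ := exists_isTranscendenceBasis k L
  have hessLK : Algebra.EssFiniteType L K := Algebra.EssFiniteType.of_comp k L K
  obtain ⟨t, ht⟩ := exists_isTranscendenceBasis L K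
  have hfin : Set.Finite s := by
    have h2 : Algebra.trdeg k L < Cardinal.aleph0 :=
      (_root_.trdeg_le_of_injective (IsScalarTower.toAlgHom k L K)
        (algebraMap L K).injective).trans_lt (trdeg_lt_aleph0 k K)
    rw [← hs.cardinalMk_eq_trdeg] at h2
    exact Cardinal.lt_aleph0_iff_set_finite.1 h2
  let A : IntermediateField k L := adjoin k s
  have hA : Algebra.EssFiniteType k A := by
    rw [essFiniteType_iff]
    exact ⟨hfin.toFinset, by rw [Set.Finite.coe_toFinset]⟩
  have t1 : IsScalarTower A L K := inferInstance
  have t2 : IsScalarTower k A K := IsScalarTower.of_algebraMap_eq fun x => by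
    rw [IsScalarTower.algebraMap_apply k L K, IsScalarTower.algebraMap_apply A L K,
      ← IsScalarTower.algebraMap_apply k A L]
  have hAL : Algebra.IsAlgebraic A L := by
    have h1 := hs.isAlgebraic_field
    rwa [Subtype.range_coe] at h1
  let F : IntermediateField A K := adjoin A t
  have hessFK : Algebra.EssFiniteType F K := by
    have h1 : Algebra.EssFiniteType A K := Algebra.EssFiniteType.of_comp k A K
    exact Algebra.EssFiniteType.of_comp A F K
  have halg : Algebra.IsAlgebraic F K := by
    -- the elements of `L` are algebraic over `F`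
    have h1 : ∀ y : L, IsAlgebraic F (algebraMap L K y) := fun y =>
      ((hAL.isAlgebraic y).algebraMap (A := K)).tower_top F
    have h2 := ht.isAlgebraic_field
    rw [Subtype.range_coe] at h2
    obtain ⟨B, hB⟩ : ∃ B : IntermediateField F K, B = algebraicClosure F K := ⟨_, rfl⟩
    have hBm : ∀ z, z ∈ B ↔ IsAlgebraic F z := fun z => by
      rw [hB, mem_algebraicClosure_iff]
    let B' : IntermediateField L K :=
      { B.toSubfield with
        algebraMap_mem' := fun y => (hBm _).2 (h1 y) }
    have h3 : adjoin L t ≤ B' := by
      rw [adjoin_le_iff]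
      intro z hz
      change z ∈ B
      have h4 : z ∈ F := subset_adjoin _ _ hz
      exact (hBm z).2 (isAlgebraic_algebraMap (⟨z, h4⟩ : F))
    refine ⟨fun z => ?_⟩
    have h4 : IsAlgebraic (adjoin L t) z := h2.isAlgebraic z
    have h5 : IsAlgebraic B z := by
      obtain ⟨p, hp0, hp⟩ := h4
      let φ : adjoin L t →+* B := (inclusion h3).toRingHom
      refine ⟨p.map φ, ?_, ?_⟩
      · rw [Polynomial.map_ne_zero_iff φ.injective]
        exact hp0
      · rw [Polynomial.aeval_def, Polynomial.eval₂_map]
        exact hp
    have h6 : Algebra.IsAlgebraic F B := by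
      rw [hB]
      infer_instance
    exact h5.restrictScalars F
  have hfinFK : FiniteDimensional F K := Algebra.finite_of_essFiniteType_of_isAlgebraic
  have hLfin : Module.Finite A L := by
    have h1 := linInd_trans (A := A) ht.1 (Module.Basis.ofVectorSpace A L).linearIndependent
    have h2 := h1.finite
    exact Module.Finite.of_basis (Module.Basis.ofVectorSpace A L)
  have hALess : Algebra.EssFiniteType A L := inferInstance
  exact Algebra.EssFiniteType.comp k A L

end Pool.Agent.Q298.EF
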