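import Pool.Agent.Q298.EF.Loc

/-! Curves `y ^ 2 = f (x)` with `f` of degree three or four: the canonical degree is zero. -/

set_option autoImplicit false

open Polynomial FF Pool.Agent.W603.LV

namespace Pool.Agent.Q298.EF

variable {k K : Type*} [Field k] [Field K] [Algebra k K] [CharZero k] [IsFF k K] [IsAlgClosed k]

/-- **Curves of genus one.** -/
theorem canDeg_zero {x y : K} (hx : Transcendental k x) {f : k[X]} (hfs : f.Separable)
    (hd : f.natDegree = 3 ∨ f.natDegree = 4) (hxy : y ^ 2 = aeval x f)
    (hgen : IntermediateField.adjoin k {x, y} = ⊤) : canDeg k K = 0 := by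
  classical
  have hf0 : f ≠ 0 := hfs.ne_zero
  have hfx : aeval x f ≠ 0 := fun h => hx ⟨f, hf0, h⟩
  have hy0 : y ≠ 0 := by
    rintro rfl
    rw [zero_pow two_ne_zero] at hxy
    exact hfx hxy.symm
  have hx0 : x ≠ 0 := by
    rintro rfl
    exact hx isAlgebraic_zero
  obtain ⟨D0, hD0⟩ : ∃ D0 : Derivation k K K, D0 = der k K := ⟨_, rfl⟩
  have hD0n : D0 ≠ 0 := by
    rw [hD0]
    exact der_ne
  have hDx0 : D0 x ≠ 0 := der_ne_zero hD0n hx
  obtain ⟨D, hDd⟩ : ∃ D : Derivation k K K, D = (y / D0 x) • D0 := ⟨_, rfl⟩
  have hDx : D x = y := by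
    rw [hDd, Derivation.smul_apply, smul_eq_mul]
    field_simp
  have hD : D ≠ 0 := by
    rintro h
    rw [h] at hDx
    exact hy0 hDx.symm
  have key : ∀ P : Place k K, vo P D = 0 := by
    intro P
    by_cases hPx : Ge P 0 x
    · obtain ⟨a, ha⟩ := exists_const P hPx
      refine vo_zero P (f := f) (c := 1) (fun h => hx ?_) ha hxy hy0 ?_ hgen hD one_ne_zero
        (by rw [map_one, one_mul, hDx])
      · rw [h]
        exact isAlgebraic_algebraMap a
      · by_contra hcon
        push Not at hcon
        obtain ⟨u, v, huv⟩ := hfs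
        have h1 := congrArg (eval a) huv
        rw [eval_add, eval_mul, eval_mul, hcon.1, hcon.2, eval_one] at h1
        simp at h1
    · have hPo : P.ord x < 0 := by
        by_contra hcon
        exact hPx (Or.inr (not_lt.1 hcon))
      have hinv : P.ord x⁻¹ = - P.ord x := P.ord_inv x
      obtain ⟨g, hg⟩ : ∃ g, g = reflect 4 f := ⟨_, rfl⟩
      have hgd : f.natDegree ≤ 4 := by omega
      have h1 : aeval x⁻¹ g * x ^ 4 = aeval x f := by
        have hinvx : Invertible x := invertibleOfNonzero hx0
        have h2 := eval₂_reflect_mul_pow (algebraMap k K) x 4 f hgd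
        rw [invOf_eq_inv] at h2
        rw [hg]
        exact h2
      have hg0 : g.eval 0 = f.coeff 4 := by
        rw [← coeff_zero_eq_eval_zero, hg, coeff_reflect]
        rfl
      have hg1 : g.derivative.eval 0 = f.coeff 3 := by
        rw [← coeff_zero_eq_eval_zero, coeff_derivative, hg, coeff_reflect]
        have : revAt 4 (0 + 1) = 3 := rfl
        rw [this]
        simp
      refine vo_zero P (x := x⁻¹) (y := y / x ^ 2) (a := 0) (f := g) (c := -1) ?_ ?_ ?_ ?_ ?_ ?_ hD
        (by norm_num) ?_
      · rw [map_zero]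
        exact inv_ne_zero hx0
      · right
        rw [map_zero, sub_zero, hinv]
        omega
      · rw [div_pow, hxy, ← h1]
        field_simp
      · exact div_ne_zero hy0 (pow_ne_zero _ hx0)
      · rw [hg0, hg1]
        rcases hd with h | h
        · right
          rw [← h]
          exact leadingCoeff_ne_zero.2 hf0
        · left
          rw [← h]
          exact leadingCoeff_ne_zero.2 hf0
      · rw [eq_top_iff, ← hgen, IntermediateField.adjoin_le_iff]
        have h2 : x⁻¹ ∈ IntermediateField.adjoin k {x⁻¹, y / x ^ 2} :=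
          IntermediateField.subset_adjoin _ _ (by simp)
        have h3 : y / x ^ 2 ∈ IntermediateField.adjoin k {x⁻¹, y / x ^ 2} :=
          IntermediateField.subset_adjoin _ _ (by simp)
        have h4 : x ∈ IntermediateField.adjoin k {x⁻¹, y / x ^ 2} := by
          have := inv_mem h2
          rwa [inv_inv] at this
        rintro z (rfl | hz)
        · exact h4
        · rw [Set.mem_singleton_iff.1 hz]
          have h5 := mul_mem h3 (pow_mem h4 2)
          rwa [div_mul_cancel₀ _ (pow_ne_zero _ hx0)] at h5
      · rw [D.leibniz_inv, hDx, map_neg, map_one, smul_eq_mul]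
        field_simp
  have h := canDeg_finset hD ∅ fun P hP => absurd (key P) hP
  simpa using h

end Pool.Agent.Q298.EF
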