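import Pool.Agent.Q298.EF.LinOne
import Pool.Agent.Y191.Push2
import Pool.Agent.W619.Y.Parts

/-! Fibre products of double covers of genus at most one after a base change. -/

set_option autoImplicit false
set_option linter.overlappingInstances false
set_option linter.unusedSectionVars false

open FF Pool.Agent.W602.GT Pool.Agent.W603.LV Pool.Agent.W619.PQ Pool.Agent.W619.Y
open Pool.Agent.TH585.SV Pool.Agent.W619.TW Pool.Agent.Y191

namespace Pool.Agent.Q298.EF

/-- subfields of uniruled function fields -/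
theorem unir_down {K K' : Type} [Field K] [Field K'] [Algebra ℂ K] [Algebra ℂ K'] [Algebra K K']
    [IsScalarTower ℂ K K'] {n : ℕ} (h : Unir K' n) : Unir K n := by
  obtain ⟨M, hM, hM', h1, h2, ⟨φ⟩⟩ := h
  exact ⟨M, hM, hM', h1, h2, ⟨φ.comp (IsScalarTower.toAlgHom ℂ K K')⟩⟩

/-- the numerical dimension of the variety below a generically finite map -/
theorem num_down {K K' : Type} [Field K] [Field K'] [Algebra ℂ K] [Algebra ℂ K'] [Algebra K K']
    [IsScalarTower ℂ K K'] [FiniteDimensional K K'] [Algebra.EssFiniteType ℂ K] {n h : ℕ}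
    (hn : Algebra.trdeg ℂ K = n) (hK' : NumLe ℂ K' n (fun _ => False) h) :
    NumLe ℂ K n (fun _ => False) h := by
  have h1 := (pTRANS ℂ K K' n hn
    (fun y hy => Pool.Agent.W824.PG.fin_adj inferInstance y hy) (fun _ => False)).2.2 h
  refine h1 ?_
  have h2 : BdUp (k := ℂ) (K := K) (L := K') (fun _ : Place ℂ K => False) = fun _ => False := by
    funext w
    simp [BdUp]
  rw [h2]
  exact hK'

/-- **Fibre products of double covers after a base change.** -/
theorem geo_main {d e : ℕ} (he : 1 ≤ e) {K K' : Type} [Field K] [Field K'] [Algebra ℂ K]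
    [Algebra ℂ K'] [Algebra K K'] [IsScalarTower ℂ K K'] [FiniteDimensional K K']
    [Algebra.EssFiniteType ℂ K] (hK : Algebra.trdeg ℂ K = (d + e : ℕ))
    {L : IntermediateField ℂ K} (hL : Algebra.trdeg ℂ L = d) {α : K'}
    (hα : IsAlgebraic (upF K' L) α) (htop : ∀ z : K', ∃ p : Polynomial K, z = Polynomial.aeval α p)
    {x y : Fin e → K'} (hx : IsTranscendenceBasis (upF K' L) x)
    {F : Fin e → Polynomial K'} (hF0 : ∀ j, F j ≠ 0)
    (hFa : ∀ j i, IsAlgebraic (upF K' L) ((F j).coeff i))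
    (hxy : ∀ j, y j ^ 2 = (F j).eval (x j))
    (hgen : IntermediateField.adjoin ℂ
      ({a | IsAlgebraic (upF K' L) a} ∪ Set.range x ∪ Set.range y) = ⊤)
    (hd : ∀ j, (F j).natDegree ≤ 4) (X : Set (Place ℂ K)) :
    Unir K (d + e) ∨ ((∃ M : ℕ, 0 < M ∧ ∃ θ : Fin (0 + 1) → (Fin e → Derivation L K K) → K,
      (∀ b, FibSec (d + e) M X (fun _ => 0) L (θ b)) ∧ ∃ G, θ 0 G ≠ 0 ∧
        AlgebraicIndependent L (fun i : Fin 0 => θ i.succ G / θ 0 G)) ∧
      NumLe ℂ K (d + e) (fun _ => False) d) := by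
  classical
  have hfinK' : Algebra.EssFiniteType K K' := inferInstance
  have hess : Algebra.EssFiniteType ℂ K' := Algebra.EssFiniteType.comp ℂ K K'
  have hK' : Algebra.trdeg ℂ K' = (d + e : ℕ) := by
    have h0 : Algebra.IsAlgebraic K K' := inferInstance
    rw [← _root_.trdeg_add_eq ℂ K (A := K'), trdeg_eq_zero_iff.2 h0, add_zero, hK]
  have hLup : Algebra.trdeg ℂ (upF K' L) = d := by
    rw [← hL]
    exact ((L.equivMap (IsScalarTower.toAlgHom ℂ K K')).trdeg_eq).symm
  have hLK : Algebra.trdeg L K = e := by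
    have h1 := _root_.trdeg_add_eq ℂ L (A := K)
    rw [hL, hK] at h1
    push_cast at h1
    exact Cardinal.eq_of_add_eq_add_left h1 Cardinal.natCast_lt_aleph0
  rcases dich hK' hx hF0 hFa hxy hgen hd with h1 | h1
  · right
    obtain ⟨f, c, z, h2, h2d, h2g⟩ := h1
    refine ⟨?_, num_down hK (total he hK' hLup hx h2 h2d h2g)⟩
    obtain ⟨m, hm, θ, hθ, hne⟩ := hyp_forms h2 hx {Q | ∃ P ∈ X, ∃ ε, Over Q P ε} (d + e)
    exact push (lam := 0) hm hLK hα htop (θ' := fun _ => θ) (fun _ => hθ) (by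
      obtain ⟨G, hG⟩ := hne
      refine ⟨G, hG, ?_⟩
      rw [algebraicIndependent_empty_type_iff]
      exact FaithfulSMul.algebraMap_injective _ _)
  · exact Or.inl (unir_down h1)

end Pool.Agent.Q298.EF
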