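import Pool.Agent.Q298.EF.Dich
import Pool.Agent.TH585.SV.Fib9

/-! The geometric generic fibre of a rational map, and the numerical dimension of the total space. -/

set_option autoImplicit false
set_option linter.overlappingInstances false
set_option linter.unusedSectionVars false

open Polynomial FF IntermediateField Pool.Agent.W603.LV Pool.Agent.W619.PQ Pool.Agent.W619.PL
  Pool.Agent.W619.TW Pool.Agent.Y174 Pool.Agent.TH585.SV

namespace Pool.Agent.Q298.EF

/-- the field of constants of the geometric generic fibre -/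
noncomputable abbrev GeoConst {K : Type} [Field K] [Algebra ℂ K] (L : IntermediateField ℂ K) :
    IntermediateField L (AlgebraicClosure K) :=
  algebraicClosure L (AlgebraicClosure K)

/-- the function field of the geometric generic fibre -/
noncomputable abbrev GeoFib {K : Type} [Field K] [Algebra ℂ K] (L : IntermediateField ℂ K) :
    IntermediateField (GeoConst L) (AlgebraicClosure K) :=
  adjoin (GeoConst L) (Set.range (algebraMap K (AlgebraicClosure K)))

/-- **The numerical dimension of the total space.** -/
theorem num_geo {K : Type} [Field K] [Algebra ℂ K] [Algebra.EssFiniteType ℂ K] {d e : ℕ}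
    (he : 1 ≤ e) (hK : Algebra.trdeg ℂ K = (d + e : ℕ)) {L : IntermediateField ℂ K}
    (hL : Algebra.trdeg ℂ L = d) {h : ℕ}
    (hnum : NumLe (GeoConst L) (GeoFib L) e (fun _ => False) h) :
    NumLe ℂ K (d + e) (fun _ => False) (d + h) := by
  classical
  obtain ⟨r, rfl⟩ := Nat.exists_eq_add_of_le' he
  obtain ⟨L', hL'⟩ : ∃ L' : IntermediateField ℂ K, L' = (algebraicClosure L K).restrictScalars ℂ :=
    ⟨_, rfl⟩
  have hL'm : ∀ a, a ∈ L' ↔ IsAlgebraic L a := fun a => by
    rw [hL', mem_restrictScalars, mem_algebraicClosure_iff]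
  have hLL' : L ≤ L' := fun a ha => (hL'm a).2 (isAlgebraic_algebraMap (⟨a, ha⟩ : L))
  clear hL'
  let _ : Algebra L L' := (inclusion hLL').toRingHom.toAlgebra
  have t1 : IsScalarTower L L' K := IsScalarTower.of_algebraMap_eq fun a => rfl
  have t2 : IsScalarTower ℂ L L' := IsScalarTower.of_algebraMap_eq fun a => rfl
  have halg : Algebra.IsAlgebraic L L' := ⟨fun a => by
    have h1 : IsAlgebraic L (algebraMap L' K a) := (hL'm _).1 a.2
    exact (isAlgebraic_algebraMap_iff (algebraMap L' K).injective).1 h1⟩
  have htr : Algebra.trdeg ℂ L' = d := by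
    rw [← _root_.trdeg_add_eq ℂ L (A := L'), trdeg_eq_zero_iff.2 halg, add_zero, hL]
  have hess : Algebra.EssFiniteType ℂ L' := ess_sub (K := K)
  -- the instances
  let φ : L' →+* GeoConst L := ((algebraMap K (AlgebraicClosure K)).comp (algebraMap L' K)).codRestrict
    (GeoConst L).toSubfield (fun a => by
      have h1 : IsAlgebraic L (algebraMap L' K a) := (hL'm _).1 a.2
      have h2 : IsAlgebraic L (algebraMap K (AlgebraicClosure K) (algebraMap L' K a)) :=
        h1.algebraMap
      exact mem_algebraicClosure_iff.2 h2)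
  let ψ : K →+* GeoFib L := (algebraMap K (AlgebraicClosure K)).codRestrict (GeoFib L).toSubfield
    (fun a => subset_adjoin _ _ ⟨a, rfl⟩)
  let i1 : Algebra L' (GeoConst L) := φ.toAlgebra
  let i2 : Algebra K (GeoFib L) := ψ.toAlgebra
  let i3 : Algebra L' (GeoFib L) := ((algebraMap (GeoConst L) (GeoFib L)).comp φ).toAlgebra
  have hval : ∀ a : ℂ, (algebraMap ℂ (GeoConst L) a : AlgebraicClosure K) =
      algebraMap K (AlgebraicClosure K) (algebraMap ℂ K a) := fun a => by
    have h1 : (algebraMap ℂ (GeoConst L) a : AlgebraicClosure K) =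
      algebraMap ℂ (AlgebraicClosure K) a := rfl
    rw [h1, IsScalarTower.algebraMap_apply ℂ K (AlgebraicClosure K)]
  let i4 : Algebra ℂ (GeoFib L) :=
    ((algebraMap (GeoConst L) (GeoFib L)).comp (algebraMap ℂ (GeoConst L))).toAlgebra
  have t3 : IsScalarTower L' (GeoConst L) (GeoFib L) := IsScalarTower.of_algebraMap_eq fun a => rfl
  have t4 : IsScalarTower L' K (GeoFib L) := IsScalarTower.of_algebraMap_eq fun a => rfl
  have t5 : IsScalarTower ℂ (GeoConst L) (GeoFib L) := IsScalarTower.of_algebraMap_eq fun a => rfl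
  have t6 : IsScalarTower ℂ K (GeoFib L) := IsScalarTower.of_algebraMap_eq fun a => by
    apply Subtype.ext
    exact hval a
  have t7 : IsScalarTower ℂ L' (GeoConst L) := IsScalarTower.of_algebraMap_eq fun a => by
    apply Subtype.ext
    rw [hval]
    rfl
  have t8 : IsScalarTower L L' (GeoConst L) := IsScalarTower.of_algebraMap_eq fun a => by
    apply Subtype.ext
    have h1 : (algebraMap L (GeoConst L) a : AlgebraicClosure K) =
      algebraMap L (AlgebraicClosure K) a := rfl
    rw [h1, IsScalarTower.algebraMap_apply L K (AlgebraicClosure K)]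
    rfl
  have halg2 : Algebra.IsAlgebraic L' (GeoConst L) := by
    have h1 : Algebra.IsAlgebraic L (GeoConst L) := inferInstance
    exact Algebra.IsAlgebraic.tower_top (K := L) L'
  have hgenF : IntermediateField.adjoin (GeoConst L) (Set.range (algebraMap K (GeoFib L))) = ⊤ := by
    apply lift_injective (GeoFib L)
    rw [lift_adjoin, lift_top]
    change adjoin (GeoConst L) _ = adjoin (GeoConst L) _
    congr 1
    rw [← Set.range_comp]
    rfl
  have hcl : ∀ x : K, IsIntegral L' x → ∃ y : L', algebraMap L' K y = x := fun a ha => by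
    have h1 : a ∈ L' := by
      rw [hL'm]
      have h2 : IsAlgebraic L' a := ha.isAlgebraic
      exact h2.restrictScalars L
    exact ⟨⟨a, h1⟩, rfl⟩
  exact @easy_add ℂ L' K (GeoConst L) (GeoFib L) _ _ _ _ _ _ _ _ _ _ i1 _ i2 i3 t3 t4 _ i4 t5 t6 t7
    hess inferInstance halg2 hgenF hcl d r htr hK h hnum

end Pool.Agent.Q298.EF
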