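import Pool.Agent.Q298.EF.IsoLow
import Pool.Agent.Q298.EF.Geo
import Pool.Agent.Q298.EF.Ess
import Pool.Agent.W904.PG.UNI

/-! Isotrivial fibrations after a base change. -/

set_option autoImplicit false
set_option linter.overlappingInstances false
set_option linter.unusedSectionVars false

open FF Pool.Agent.W602.GT Pool.Agent.W603.LV Pool.Agent.W619.PQ
open Pool.Agent.Y172 Pool.Agent.TH585.SV Pool.Agent.Y191

namespace Pool.Agent.Q298.EF

theorem trdeg_acl {K : Type} [Field K] [Algebra ℂ K] (L : IntermediateField ℂ K) :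
    Algebra.trdeg ℂ (acl ℂ (L : Set K)) = Algebra.trdeg ℂ L := by
  have hle : L ≤ acl ℂ (L : Set K) := fun x hx => subset_acl _ hx
  let _ : Algebra L (acl ℂ (L : Set K)) := (IntermediateField.inclusion hle).toRingHom.toAlgebra
  have : IsScalarTower ℂ L (acl ℂ (L : Set K)) := IsScalarTower.of_algebraMap_eq fun _ => rfl
  have : IsScalarTower L (acl ℂ (L : Set K)) K := IsScalarTower.of_algebraMap_eq fun _ => rfl
  have h1 : Algebra.IsAlgebraic L (acl ℂ (L : Set K)) := by
    refine ⟨fun y => ?_⟩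
    have h2 := mem_acl.1 y.2
    rw [IntermediateField.adjoin_self] at h2
    exact (isAlgebraic_algebraMap_iff (A := K) (algebraMap (acl ℂ (L : Set K)) K).injective).1 h2
  rw [← _root_.trdeg_add_eq ℂ L (A := acl ℂ (L : Set K)), trdeg_eq_zero_iff.2 h1, add_zero]

/-- **Isotrivial fibrations after a base change.** -/
theorem iso_geo {d e : ℕ} {K K' : Type} [Field K] [Field K'] [Algebra ℂ K]
    [Algebra ℂ K'] [Algebra K K'] [IsScalarTower ℂ K K'] [FiniteDimensional K K']
    [Algebra.EssFiniteType ℂ K] (hK : Algebra.trdeg ℂ K = (d + e : ℕ))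
    {L : IntermediateField ℂ K} (hL : Algebra.trdeg ℂ L = d) {α : K'}
    (hα : IsAlgebraic (upF K' L) α) (htop : ∀ z : K', ∃ p : Polynomial K, z = Polynomial.aeval α p)
    {M : IntermediateField ℂ K'} [Algebra.EssFiniteType ℂ M] (hM : Algebra.trdeg ℂ M = e)
    (hgen : acl ℂ (upF K' L : Set K') ⊔ M = ⊤) (X : Set (Place ℂ K)) :
    (Unir M e → Unir K (d + e)) ∧ ∀ (m a : ℕ), 0 < m →
      ∀ η : Fin (a + 1) → (Fin e → Derivation ℂ M M) → M,
      (∀ l, IsPluri m (η l) ∧ ∀ P : Place ℂ M, Divisorial e P →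
        ∀ D : Fin e → Derivation ℂ M M, (∀ i, DerReg P (D i)) → P.Reg (η l D)) →
      (∃ D, η 0 D ≠ 0 ∧ AlgebraicIndependent ℂ (fun i : Fin a => η i.succ D / η 0 D)) →
      ∃ M' : ℕ, 0 < M' ∧ ∃ θ : Fin (a + 1) → (Fin e → Derivation L K K) → K,
      (∀ b, FibSec (d + e) M' X (fun _ => 0) L (θ b)) ∧ ∃ G, θ 0 G ≠ 0 ∧
        AlgebraicIndependent L (fun i : Fin a => θ i.succ G / θ 0 G) := by
  classical
  have hfinK' : Algebra.EssFiniteType K K' := inferInstance
  have hess : Algebra.EssFiniteType ℂ K' := Algebra.EssFiniteType.comp ℂ K K'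
  have hK' : Algebra.trdeg ℂ K' = (d + e : ℕ) := by
    have h0 : Algebra.IsAlgebraic K K' := inferInstance
    rw [← _root_.trdeg_add_eq ℂ K (A := K'), trdeg_eq_zero_iff.2 h0, add_zero, hK]
  have hLup : Algebra.trdeg ℂ (upF K' L) = d := by
    rw [← hL]
    exact ((L.equivMap (IsScalarTower.toAlgHom ℂ K K')).trdeg_eq).symm
  have hLK : Algebra.trdeg L K = e := by
    have h1 := _root_.trdeg_add_eq ℂ L (A := K)
    rw [hL, hK] at h1
    push_cast at h1
    exact Cardinal.eq_of_add_eq_add_left h1 Cardinal.natCast_lt_aleph0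
  have hLK' : Algebra.trdeg (upF K' L) K' = e := by
    have h1 := _root_.trdeg_add_eq ℂ (upF K' L) (A := K')
    rw [hLup, hK'] at h1
    push_cast at h1
    exact Cardinal.eq_of_add_eq_add_left h1 Cardinal.natCast_lt_aleph0
  refine ⟨fun hU => unir_down (K' := K') ?_, fun m a hm η hη hne => ?_⟩
  · have hPe : Algebra.EssFiniteType ℂ (acl ℂ (upF K' L : Set K')) := ess_sub (K := K')
    have hPd : Algebra.trdeg ℂ (acl ℂ (upF K' L : Set K')) ≤ d := by
      rw [trdeg_acl, hLup]
    have h1 := Pool.Agent.W904.PG.main1 (k := ℂ) (L := K') M (acl ℂ (upF K' L : Set K')) e d hM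
      (by rw [hK', add_comm]) hPd (by rw [sup_comm]; exact hgen) hPe hU
    rw [add_comm] at h1
    exact h1
  · obtain ⟨θ, hθ, hθ0⟩ := iso_low (N := d + e) hK' hLK' hgen hM hη hne
      {Q | ∃ P ∈ X, ∃ ε, Over Q P ε}
    exact push (lam := a) hm hLK hα htop hθ hθ0

end Pool.Agent.Q298.EF
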