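import Pool.Agent.Q298.EF.LinOne
import Pool.Agent.Y191.Push2
import Pool.Agent.Y191.MovFib
import Pool.Agent.W619.Y.Parts
import Pool.Agent.W619.Y.Eqv

/-! Isotrivial fibrations: the forms along the fibres. -/

set_option autoImplicit false
set_option linter.overlappingInstances false
set_option linter.unusedSectionVars false

open FF Pool.Agent.W602.GT Pool.Agent.W603.LV Pool.Agent.W619.PQ
open Pool.Agent.Y172 Pool.Agent.TH585.SV Pool.Agent.Y191

namespace Pool.Agent.Q298.EF

section

variable {K : Type} [Field K] [Algebra ℂ K] {L M : IntermediateField ℂ K} {e : ℕ}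

theorem det_reg {P : Place ℂ K} {n : ℕ} {A : Matrix (Fin n) (Fin n) K}
    (h : ∀ i j, P.Reg (A i j)) : Ge P 0 A.det := by
  rw [Matrix.det_apply]
  refine Ge.sum _ _ fun σ _ => ?_
  have h1 : Ge P 0 (∏ i, A (σ i) i) := by
    have h2 := Ge.prod (P := P) Finset.univ (fun i => A (σ i) i) (fun _ => 0)
      (fun i _ => h (σ i) i)
    simpa using h2
  rcases Int.units_eq_one_or (Equiv.Perm.sign σ) with h2 | h2
  · rw [h2, one_smul]
    exact h1
  · rw [h2, Units.neg_smul, one_smul]
    exact h1.neg

/-- a transcendence basis of the function field of the fibre -/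
theorem iso_basis (hLK : Algebra.trdeg L K = e) (htop : acl ℂ (L : Set K) ⊔ M = ⊤)
    {y : Fin e → M} (hy : IsTranscendenceBasis ℂ y) :
    IsTranscendenceBasis L (fun i => (y i : K)) := by
  have hcL : CharZero L := charZero_of_injective_algebraMap (algebraMap ℂ L).injective
  obtain ⟨u, -, hu, -⟩ := exists_crd hLK
  refine basis_of_gen hu fun D hD h => ?_
  have h1 : ∀ m : M, D (m : K) = 0 := fun m =>
    Pool.Agent.W619.TW.der_zero (K := M) (L := K) (D.compAlgebraMap M) y hy h m
  have h2 : acl ℂ (L : Set K) ⊔ M ≤ consts D := by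
    refine sup_le (fun z hz => ?_) fun z hz => h1 ⟨z, hz⟩
    exact der_alg0 D (S := (L : Set K)) (fun s hs => hD s hs) (mem_acl.1 hz)
  rw [htop] at h2
  ext z
  exact h2 (trivial : z ∈ (⊤ : IntermediateField ℂ K))

theorem iso_ind (hLK : Algebra.trdeg L K = e) (htop : acl ℂ (L : Set K) ⊔ M = ⊤)
    (hM : Algebra.trdeg ℂ M = e) {a : ℕ} {r : Fin a → M} (hr : AlgebraicIndependent ℂ r) :
    AlgebraicIndependent L (fun i => (r i : K)) := by
  obtain ⟨t, ht, hb⟩ := exists_isTranscendenceBasis_superset (R := ℂ) (s := Set.range r)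
    hr.to_subtype_range
  have h1 := hb.cardinalMk_eq_trdeg
  rw [hM] at h1
  have h2 : Cardinal.lift.{0} (Cardinal.mk t) = Cardinal.lift.{0} (Cardinal.mk (Fin e)) := by
    rw [h1]
    simp
  obtain ⟨ε⟩ := Cardinal.lift_mk_eq'.1 h2
  have h3 : IsTranscendenceBasis ℂ ((↑) ∘ ε.symm : Fin e → M) :=
    (isTranscendenceBasis_equiv ε.symm).2 hb
  have h4 := (iso_basis hLK htop h3).1
  have h5 : (fun i => (r i : K)) = (fun i => (((↑) ∘ ε.symm : Fin e → M) i : K)) ∘
      fun i => ε ⟨r i, ht ⟨i, rfl⟩⟩ := by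
    funext i
    change (r i : K) = (((ε.symm (ε ⟨r i, ht ⟨i, rfl⟩⟩)) : t) : M)
    rw [Equiv.symm_apply_apply]
  rw [h5]
  refine h4.comp _ fun i j hij => ?_
  have h6 := ε.injective hij
  exact hr.injective (congrArg Subtype.val h6)

/-- **The forms along the fibres of an isotrivial fibration.** -/
theorem iso_low {N m a : ℕ} (hN : Algebra.trdeg ℂ K = N) (hLK : Algebra.trdeg L K = e)
    (htop : acl ℂ (L : Set K) ⊔ M = ⊤) (hM : Algebra.trdeg ℂ M = e) [Algebra.EssFiniteType ℂ M]
    {η : Fin (a + 1) → (Fin e → Derivation ℂ M M) → M}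
    (hη : ∀ l, IsPluri m (η l) ∧ ∀ P : Place ℂ M, Divisorial e P →
      ∀ D : Fin e → Derivation ℂ M M, (∀ i, DerReg P (D i)) → P.Reg (η l D))
    (hne : ∃ D, η 0 D ≠ 0 ∧ AlgebraicIndependent ℂ (fun i : Fin a => η i.succ D / η 0 D))
    (X : Set (Place ℂ K)) :
    ∃ θ : Fin (a + 1) → (Fin e → Derivation L K K) → K,
      (∀ b, FibSec N m X (fun _ => 0) L (θ b)) ∧ ∃ G, θ 0 G ≠ 0 ∧
        AlgebraicIndependent L (fun i : Fin a => θ i.succ G / θ 0 G) := by
  classical
  have hcL : CharZero L := charZero_of_injective_algebraMap (algebraMap ℂ L).injective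
  have hcM : CharZero M := charZero_of_injective_algebraMap (algebraMap ℂ M).injective
  have hcK : CharZero K := charZero_of_injective_algebraMap (algebraMap ℂ K).injective
  obtain ⟨y, E, hy, hE⟩ := exists_crd hM
  obtain ⟨D0, hD0, hind⟩ := hne
  have hyL := iso_basis hLK htop hy
  -- the values on the frame
  have hval : ∀ l (D : Fin e → Derivation ℂ M M), η l D =
      (Matrix.of fun i j => D i (y j)).det ^ m * η l E := fun l D =>
    pluri_coord hy (fun i j => hE i j) (hη l).1 D
  have hdet0 : (Matrix.of fun i j => D0 i (y j)).det ≠ 0 ∨ m = 0 := by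
    by_contra hcon
    push Not at hcon
    apply hD0
    rw [hval, hcon.1, zero_pow hcon.2, zero_mul]
  have hpow0 : (Matrix.of fun i j => D0 i (y j)).det ^ m ≠ 0 := by
    intro h0
    apply hD0
    rw [hval, h0, zero_mul]
  have hE0 : η 0 E ≠ 0 := by
    intro h0
    apply hD0
    rw [hval, h0, mul_zero]
  refine ⟨fun l G => ((η l E : M) : K) * (Matrix.of fun i j => G i (y j : K)).det ^ m,
    fun b => ⟨?_, ?_⟩, ?_⟩
  · intro A D
    have h1 : (Matrix.of fun i j => (∑ c, A i c • D c) ((y j : M) : K)) =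
        A * Matrix.of fun i j => D i ((y j : M) : K) := by
      ext i j
      rw [Matrix.mul_apply, Matrix.of_apply, Pool.Agent.W308.PG.YLOC.der_sum_apply]
      rfl
    change ((η b E : M) : K) * (Matrix.of fun i j => (∑ c, A i c • D c) ((y j : M) : K)).det ^ m = _
    rw [h1, Matrix.det_mul]
    ring
  · intro P _ hPd G hG
    obtain ⟨Z, z, hz, hD, hge⟩ := Pool.Agent.W619.Y.pYLOC ℂ K M e N m hM hN
      (fun y hy => Pool.Agent.W619.Y.fin_over y hy) (η b) (hη b).1 (hη b).2 y E hy
      (fun i j => hE i j) P hPd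
    have h1 : (Matrix.of fun i j => G i ((y j : M) : K)) =
        (Matrix.of fun i c => G i (z c)) * Z.transpose := by
      ext i j
      rw [Matrix.mul_apply, Matrix.of_apply]
      have h2 := hD ((G i).restrictScalars ℂ) j
      change G i ((y j : M) : K) = ∑ c, Z j c * G i (z c) at h2
      rw [h2]
      exact Finset.sum_congr rfl fun c _ => mul_comm _ _
    have h3 : Ge P 0 (Matrix.of fun i c => G i (z c)).det := by
      exact det_reg fun i c => hG i _ (hz c)
    have h4 : Ge P 0 (((η b E : M) : K) * (Matrix.of fun i j => G i ((y j : M) : K)).det ^ m) := by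
      rw [h1, Matrix.det_mul, Matrix.det_transpose, mul_pow]
      have h5 := hge.mul (Ge.pow h3 m)
      rw [mul_zero, add_zero] at h5
      have h6 : ((η b E : M) : K) * ((Matrix.of fun i c => G i (z c)).det ^ m * Z.det ^ m) =
          ((η b E : M) : K) * Z.det ^ m * (Matrix.of fun i c => G i (z c)).det ^ m := by ring
      rw [h6]
      exact h5
    rcases h4 with h5 | h5
    · exact Or.inl h5
    · right
      rw [mul_zero, neg_zero]
      exact_mod_cast h5
  · choose G hG using fun i : Fin e => exists_der _ hyL fun j => if i = j then (1 : K) else 0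
    have h1 : (Matrix.of fun i j => G i ((y j : M) : K)) = 1 := by
      ext i j
      rw [Matrix.of_apply, Matrix.one_apply]
      exact hG i j
    have h2 : ∀ l, ((η l E : M) : K) * (Matrix.of fun i j => G i ((y j : M) : K)).det ^ m =
        ((η l E : M) : K) := fun l => by
      rw [h1, Matrix.det_one, one_pow, mul_one]
    refine ⟨G, ?_, ?_⟩
    · change ((η 0 E : M) : K) * (Matrix.of fun i j => G i ((y j : M) : K)).det ^ m ≠ 0
      rw [h2]
      exact fun h0 => hE0 (Subtype.ext h0)
    · change AlgebraicIndependent L (fun i : Fin a =>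
        ((η i.succ E : M) : K) * (Matrix.of fun i j => G i ((y j : M) : K)).det ^ m /
        (((η 0 E : M) : K) * (Matrix.of fun i j => G i ((y j : M) : K)).det ^ m))
      simp only [h2]
      have h3 : (fun i : Fin a => η i.succ D0 / η 0 D0) = fun i => η i.succ E / η 0 E := by
        funext i
        rw [hval i.succ, hval 0, mul_div_mul_left _ _ hpow0]
      rw [h3] at hind
      exact iso_ind hLK htop hM hind

end

end Pool.Agent.Q298.EF
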