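import Pool.Agent.W603.LV.Ex

/-! Places of the curve `y ^ 2 = f (x)`: the derivation `y d / dx` has neither zeros nor poles if
`f` is separable of degree three or four. -/

set_option autoImplicit false

open Polynomial FF Pool.Agent.W603.LV

namespace Pool.Agent.Q298.EF

section

variable {k K : Type*} [Field k] [Field K] [Algebra k K]

/-- the elements of the ring `k[x, y]` near a point -/
theorem adj_decomp (x y : K) (a b : k) {A : K} (hA : A ∈ Algebra.adjoin k {x, y}) :
    ∃ (α : k) (A1 A2 : K), A1 ∈ Algebra.adjoin k {x, y} ∧ A2 ∈ Algebra.adjoin k {x, y} ∧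
      A = algebraMap k K α + (x - algebraMap k K a) * A1 + (y - algebraMap k K b) * A2 := by
  induction hA using Algebra.adjoin_induction with
  | mem z hz =>
    rcases hz with rfl | hz
    · exact ⟨a, 1, 0, one_mem _, zero_mem _, by ring⟩
    · rw [Set.mem_singleton_iff] at hz
      subst hz
      exact ⟨b, 0, 1, zero_mem _, one_mem _, by ring⟩
  | algebraMap r => exact ⟨r, 0, 0, zero_mem _, zero_mem _, by ring⟩
  | add z w hz hw ihz ihw =>
    obtain ⟨α, A1, A2, h1, h2, h3⟩ := ihz
    obtain ⟨β, B1, B2, h4, h5, h6⟩ := ihw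
    refine ⟨α + β, A1 + B1, A2 + B2, add_mem h1 h4, add_mem h2 h5, ?_⟩
    rw [h3, h6, map_add]
    ring
  | mul z w hz hw ihz ihw =>
    obtain ⟨α, A1, A2, h1, h2, h3⟩ := ihz
    obtain ⟨β, B1, B2, h4, h5, h6⟩ := ihw
    refine ⟨α * β, A1 * w + algebraMap k K α * B1, A2 * w + algebraMap k K α * B2,
      add_mem (mul_mem h1 hw) (mul_mem (algebraMap_mem _ _) h4),
      add_mem (mul_mem h2 hw) (mul_mem (algebraMap_mem _ _) h5), ?_⟩
    rw [map_mul]
    conv_lhs => rw [h3, h6]
    conv_rhs => rw [h6]
    ring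

/-- the ring `k[x, y]` is regular at `P` -/
theorem adj_ge (P : Place k K) {x y : K} (hx : Ge P 0 x) (hy : Ge P 0 y) {A : K}
    (hA : A ∈ Algebra.adjoin k {x, y}) : Ge P 0 A := by
  induction hA using Algebra.adjoin_induction with
  | mem z hz =>
    rcases hz with rfl | hz
    · exact hx
    · rw [Set.mem_singleton_iff] at hz
      subst hz
      exact hy
  | algebraMap r => exact Ge.const r
  | add z w hz hw ihz ihw => exact ihz.add ihw
  | mul z w hz hw ihz ihw => simpa using ihz.mul ihw

/-- **The order of the elements of `k[x, y]` is a multiple of the order of the local parameter.** -/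
theorem ord_mult (P : Place k K) {x y : K} {a b : k} (hx : Ge P 1 (x - algebraMap k K a))
    (hy : Ge P 1 (y - algebraMap k K b)) {s U V1 V2 : K} (hs0 : s ≠ 0) (hs : 1 ≤ P.ord s)
    (hU0 : U ≠ 0) (hUo : P.ord U = 0)
    (hV1 : V1 ∈ Algebra.adjoin k {x, y}) (hV2 : V2 ∈ Algebra.adjoin k {x, y})
    (h1 : U * (x - algebraMap k K a) = s * V1) (h2 : U * (y - algebraMap k K b) = s * V2)
    {A : K} (hA : A ∈ Algebra.adjoin k {x, y}) (hA0 : A ≠ 0) :
    ∃ n : ℕ, P.ord A = n * P.ord s := by
  have hx0 : Ge P 0 x := by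
    have := (hx.mono (M := 0) (by norm_num)).add (Ge.const (P := P) a)
    simpa using this
  have hy0 : Ge P 0 y := by
    have := (hy.mono (M := 0) (by norm_num)).add (Ge.const (P := P) b)
    simpa using this
  obtain ⟨N, hN⟩ : ∃ N : ℕ, (P.ord A).toNat ≤ N := ⟨_, le_rfl⟩
  induction N generalizing A with
  | zero =>
    have h3 := (adj_ge P hx0 hy0 hA).resolve_left hA0
    refine ⟨0, ?_⟩
    push_cast
    omega
  | succ N ih =>
    have h3 := (adj_ge P hx0 hy0 hA).resolve_left hA0
    by_cases h4 : P.ord A = 0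
    · exact ⟨0, by rw [h4]; simp⟩
    obtain ⟨α, A1, A2, hA1, hA2, h5⟩ := adj_decomp x y a b hA
    have hα : α = 0 := by
      by_contra hα
      have h6 : Ge P 1 (algebraMap k K α) := by
        have h7 : Ge P 1 A := Or.inr (by omega)
        have h8 := (h7.sub (hx.mul (adj_ge P hx0 hy0 hA1) |>.mono (M := 1) (by norm_num))).sub
          (hy.mul (adj_ge P hx0 hy0 hA2) |>.mono (M := 1) (by norm_num))
        have h9 : A - (x - algebraMap k K a) * A1 - (y - algebraMap k K b) * A2 =
            algebraMap k K α := by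
          rw [h5]
          ring
        rwa [h9] at h8
      rcases h6 with h6 | h6
      · exact hα ((map_eq_zero (algebraMap k K)).1 h6)
      · rw [P.ord_const hα] at h6
        omega
    rw [hα, map_zero, zero_add] at h5
    have h6 : U * A = s * (V1 * A1 + V2 * A2) := by
      rw [h5, mul_add, ← mul_assoc, ← mul_assoc, h1, h2]
      ring
    have h7 : V1 * A1 + V2 * A2 ≠ 0 := by
      intro h0
      rw [h0, mul_zero] at h6
      exact mul_ne_zero hU0 hA0 h6
    have h8 : P.ord A = P.ord s + P.ord (V1 * A1 + V2 * A2) := by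
      have h9 := congrArg P.ord h6
      rw [P.ord_mul hU0 hA0, P.ord_mul hs0 h7, hUo, zero_add] at h9
      exact h9
    obtain ⟨n, hn⟩ := ih (add_mem (mul_mem hV1 hA1) (mul_mem hV2 hA2)) h7 (by omega)
    refine ⟨n + 1, ?_⟩
    rw [h8, hn]
    push_cast
    ring

/-- so its order is one -/
theorem ord_one_of (P : Place k K) {x y : K} {a b : k} (hx : Ge P 1 (x - algebraMap k K a))
    (hy : Ge P 1 (y - algebraMap k K b)) {s U V1 V2 : K} (hs0 : s ≠ 0) (hs : 1 ≤ P.ord s)
    (hU0 : U ≠ 0) (hUo : P.ord U = 0)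
    (hV1 : V1 ∈ Algebra.adjoin k {x, y}) (hV2 : V2 ∈ Algebra.adjoin k {x, y})
    (h1 : U * (x - algebraMap k K a) = s * V1) (h2 : U * (y - algebraMap k K b) = s * V2)
    (hgen : IntermediateField.adjoin k {x, y} = ⊤) : P.ord s = 1 := by
  obtain ⟨t, ht0, ht⟩ := P.surj
  have h3 : t ∈ IntermediateField.adjoin k {x, y} := by
    rw [hgen]
    trivial
  rw [IntermediateField.mem_adjoin_iff_div] at h3
  obtain ⟨r, hr, q, hq, h4⟩ := h3
  have hr0 : r ≠ 0 := by
    rintro rfl
    rw [zero_div] at h4
    exact ht0 h4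
  have hq0 : q ≠ 0 := by
    rintro rfl
    rw [div_zero] at h4
    exact ht0 h4
  obtain ⟨n, hn⟩ := ord_mult P hx hy hs0 hs hU0 hUo hV1 hV2 h1 h2 hr hr0
  obtain ⟨m, hm⟩ := ord_mult P hx hy hs0 hs hU0 hUo hV1 hV2 h1 h2 hq hq0
  rw [h4, P.ord_div hr0 hq0, hn, hm] at ht
  have h5 : ((n : ℤ) - m) * P.ord s = 1 := by
    rw [sub_mul]
    exact ht
  have h6 : P.ord s ∣ 1 := ⟨(n : ℤ) - m, by rw [mul_comm]; exact h5.symm⟩
  exact Int.eq_one_of_dvd_one (by omega) h6

theorem aeval_mem_adj {x y : K} (g : k[X]) : aeval x g ∈ Algebra.adjoin k {x, y} := by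
  rw [aeval_eq_sum_range]
  exact sum_mem fun i _ => Subalgebra.smul_mem _ (pow_mem (Algebra.subset_adjoin (by simp)) i) _

/-- the value of a polynomial -/
theorem aeval_val (P : Place k K) {x : K} {a : k} (hx : Ge P 1 (x - algebraMap k K a)) (g : k[X]) :
    Ge P 1 (aeval x g - algebraMap k K (g.eval a)) := by
  have h1 := mul_divByMonic_eq_iff_isRoot (p := g - C (g.eval a)) (a := a)
  obtain ⟨q, hq⟩ : ∃ q : k[X], g - C (g.eval a) = (X - C a) * q := by
    have : (X - C a) ∣ g - C (g.eval a) := by
      rw [dvd_iff_isRoot]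
      simp
    exact this
  have h2 : aeval x g - algebraMap k K (g.eval a) = (x - algebraMap k K a) * aeval x q := by
    have h3 := congrArg (aeval x) hq
    simpa using h3
  rw [h2]
  have hx0 : Ge P 0 x := by
    have := (hx.mono (M := 0) (by norm_num)).add (Ge.const (P := P) a)
    simpa using this
  simpa using hx.mul (ge_aeval P hx0 q)

theorem ord_of_val (P : Place k K) {z : K} {c : k} (hc : c ≠ 0)
    (hz : Ge P 1 (z - algebraMap k K c)) : z ≠ 0 ∧ P.ord z = 0 := by
  have hc0 : algebraMap k K c ≠ 0 := (_root_.map_ne_zero _).2 hc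
  rcases hz with hz | hz
  · rw [sub_eq_zero.1 hz]
    exact ⟨hc0, P.ord_const hc⟩
  · by_cases h0 : z - algebraMap k K c = 0
    · rw [sub_eq_zero.1 h0]
      exact ⟨hc0, P.ord_const hc⟩
    · have h1 := P.ord_add_eq hc0 h0 (by rw [P.ord_const hc]; omega)
      rw [P.ord_const hc] at h1
      simpa using h1

end

section

variable {k K : Type*} [Field k] [Field K] [Algebra k K] [CharZero k] [IsFF k K] [IsAlgClosed k]

/-- **The order of the derivation `y d / dx` at a point of the curve.** -/
theorem vo_zero (P : Place k K) {x y : K} {a : k} {f : k[X]} (hxa : x ≠ algebraMap k K a)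
    (hx : Ge P 1 (x - algebraMap k K a)) (hxy : y ^ 2 = aeval x f) (hy0 : y ≠ 0)
    (hf : f.eval a ≠ 0 ∨ f.derivative.eval a ≠ 0)
    (hgen : IntermediateField.adjoin k {x, y} = ⊤) {D : Derivation k K K} (hD : D ≠ 0) {c : k}
    (hc : c ≠ 0) (hDx : D x = algebraMap k K c * y) : vo P D = 0 := by
  have hch : CharZero K := charZero_of_injective_algebraMap (algebraMap k K).injective
  have hx0 : Ge P 0 x := by
    have := (hx.mono (M := 0) (by norm_num)).add (Ge.const (P := P) a)
    simpa using this
  have hxa' : x - algebraMap k K a ≠ 0 := sub_ne_zero.2 hxa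
  have hxo : 1 ≤ P.ord (x - algebraMap k K a) := hx.resolve_left hxa'
  have hyge : Ge P 0 y := by
    right
    have h1 : Ge P 0 (y ^ 2) := by
      rw [hxy]
      exact ge_aeval P hx0 f
    have h2 := h1.resolve_left (pow_ne_zero _ hy0)
    rw [P.ord_pow] at h2
    push_cast at h2
    omega
  obtain ⟨b, hb⟩ := exists_const P hyge
  -- the value
  have hb2 : b ^ 2 = f.eval a := by
    by_contra hne
    have h1 : Ge P 1 (y ^ 2 - algebraMap k K (b ^ 2)) := by
      have h2 : y ^ 2 - algebraMap k K (b ^ 2) =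
          (y - algebraMap k K b) * (y + algebraMap k K b) := by
        rw [map_pow]
        ring
      rw [h2]
      simpa using hb.mul (hyge.add (Ge.const b))
    have h2 := aeval_val P hx f
    rw [← hxy] at h2
    have h3 := h2.sub h1
    have h4 : y ^ 2 - algebraMap k K (f.eval a) - (y ^ 2 - algebraMap k K (b ^ 2)) =
        algebraMap k K (b ^ 2 - f.eval a) := by
      rw [map_sub]
      ring
    rw [h4] at h3
    rcases h3 with h3 | h3
    · exact hne (sub_eq_zero.1 ((map_eq_zero (algebraMap k K)).1 h3))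
    · rw [P.ord_const (sub_ne_zero.2 hne)] at h3
      omega
  have hxm : x ∈ Algebra.adjoin k {x, y} := Algebra.subset_adjoin (by simp)
  have hym : y ∈ Algebra.adjoin k {x, y} := Algebra.subset_adjoin (by simp)
  have hcK : algebraMap k K c ≠ 0 := (_root_.map_ne_zero _).2 hc
  by_cases hb0 : b = 0
  · -- a branch point
    have hfa : f.eval a = 0 := by
      rw [← hb2, hb0]
      ring
    have hfd : f.derivative.eval a ≠ 0 := hf.resolve_left (fun h => h hfa)
    obtain ⟨g, hg⟩ : (X - C a) ∣ f := dvd_iff_isRoot.2 hfa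
    have hga : g.eval a = f.derivative.eval a := by
      rw [hg]
      simp
    have hgx := ord_of_val P (c := g.eval a) (by rw [hga]; exact hfd) (aeval_val P hx g)
    have hfx : aeval x f = (x - algebraMap k K a) * aeval x g := by
      rw [hg]
      simp
    rw [hb0, map_zero, sub_zero] at hb
    have hyo : 1 ≤ P.ord y := hb.resolve_left hy0
    have h1 : P.ord y = 1 := by
      refine ord_one_of P (a := a) (b := 0) (s := y) (U := aeval x g) (V1 := y) (V2 := aeval x g)
        hx (by simpa using hb) hy0 hyo hgx.1 hgx.2 hym (aeval_mem_adj g)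
        ?_ ?_ hgen
      · rw [mul_comm, ← hfx, ← hxy]
        ring
      · rw [map_zero, sub_zero]
        ring
    have h2 : 2 * D y = aeval x f.derivative * algebraMap k K c := by
      have h3 := congrArg D hxy
      rw [D.leibniz_pow, Derivation.map_aeval, hDx] at h3
      simp only [nsmul_eq_mul, smul_eq_mul, Nat.cast_ofNat] at h3
      refine mul_left_cancel₀ hy0 ?_
      linear_combination h3
    have h3 := ord_of_val P hfd (aeval_val P hx f.derivative)
    have h4 : P.ord (D y) = 0 := by
      have h5 : (2 : K) = algebraMap k K 2 := (map_ofNat (algebraMap k K) 2).symm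
      have h6 : D y ≠ 0 := by
        intro h0
        rw [h0, mul_zero] at h2
        exact mul_ne_zero h3.1 hcK h2.symm
      have h7 := congrArg P.ord h2
      rw [h5, P.ord_mul (by rw [← h5]; norm_num) h6, P.ord_const two_ne_zero, zero_add,
        P.ord_mul h3.1 hcK, P.ord_const hc, h3.2, zero_add] at h7
      exact h7
    rw [← vo_eq P h1 hD, h4]
  · have h1 : P.ord (x - algebraMap k K a) = 1 := by
      obtain ⟨g, hg⟩ : (X - C a) ∣ f - C (f.eval a) := by
        rw [dvd_iff_isRoot]
        simp
      have hgx : aeval x f - algebraMap k K (f.eval a) = (x - algebraMap k K a) * aeval x g := by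
        have h3 := congrArg (aeval x) hg
        simpa using h3
      have hU := ord_of_val P (z := y + algebraMap k K b) (c := 2 * b)
        (mul_ne_zero two_ne_zero hb0) (by
        have h4 : y + algebraMap k K b - algebraMap k K (2 * b) = y - algebraMap k K b := by
          rw [map_mul]
          simp only [map_ofNat]
          ring
        rw [h4]
        exact hb)
      refine ord_one_of P (a := a) (b := b) (s := x - algebraMap k K a)
        (U := y + algebraMap k K b) (V1 := y + algebraMap k K b) (V2 := aeval x g)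
        hx hb hxa' hxo hU.1 hU.2
        (add_mem hym (algebraMap_mem _ _)) (aeval_mem_adj g) (by ring) ?_ hgen
      rw [← hgx, ← hxy, ← hb2, map_pow]
      ring
    rw [← vo_eq P h1 hD, map_sub, Derivation.map_algebraMap, sub_zero, hDx,
      P.ord_mul hcK hy0, P.ord_const hc, (ord_of_val P hb0 hb).2, zero_add]

end

end Pool.Agent.Q298.EF
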