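import Pool.Agent.Q298.EF.Gen
import Pool.Agent.W619.TW.KN

/-! Products of curves of genus one have numerical dimension zero. -/

set_option autoImplicit false

open Polynomial FF IntermediateField Pool.Agent.W603.LV Pool.Agent.W619.PQ Pool.Agent.W619.PL
  Pool.Agent.W619.TW

namespace Pool.Agent.Q298.EF

variable {k L : Type} [Field k] [Field L] [Algebra k L] [CharZero k] [IsAlgClosed k]

omit [CharZero k] [IsAlgClosed k] in
/-- the generators in the field which they generate -/
theorem adjoin_top (x z : L) (F : IntermediateField k L) (hF : F = adjoin k {x, z}) (hx : x ∈ F)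
    (hz : z ∈ F) : adjoin k {(⟨x, hx⟩ : F), ⟨z, hz⟩} = ⊤ := by
  apply lift_injective F
  rw [lift_adjoin, lift_top, Set.image_pair]
  exact hF.symm

omit [CharZero k] [IsAlgClosed k] in
/-- the function field of a curve -/
theorem isFF_pair {x z : L} (hx : Transcendental k x) {f : k[X]} (hxz : z ^ 2 = aeval x f) :
    IsFF k (adjoin k {x, z}) := by
  classical
  refine ⟨?_, ?_⟩
  · rw [essFiniteType_iff]
    have : ({x, z} : Set L) = (({x, z} : Finset L) : Set L) := by simp
    rw [this]
    exact fg_adjoin_finset _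
  · obtain ⟨F, hF⟩ : ∃ F : IntermediateField k L, F = adjoin k {x, z} := ⟨_, rfl⟩
    rw [← hF]
    have hxm : x ∈ F := by
      rw [hF]
      exact subset_adjoin _ _ (by simp)
    have hzm : z ∈ F := by
      rw [hF]
      exact subset_adjoin _ _ (by simp)
    have htr : Transcendental k (⟨x, hxm⟩ : F) := fun h => hx (h.algebraMap (A := L))
    have h1 : AlgebraicIndependent k (fun _ : Unit => (⟨x, hxm⟩ : F)) := by
      rw [algebraicIndependent_unique_type_iff]
      exact htr
    have h2 : Algebra.IsAlgebraic (adjoin k {(⟨x, hxm⟩ : F)}) F := by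
      obtain ⟨A, hA⟩ : ∃ A : IntermediateField k F,
          A = (algebraicClosure (adjoin k {(⟨x, hxm⟩ : F)}) F).restrictScalars k := ⟨_, rfl⟩
      have hAm : ∀ w, w ∈ A ↔ IsAlgebraic (adjoin k {(⟨x, hxm⟩ : F)}) w := fun w => by
        rw [hA, mem_restrictScalars, mem_algebraicClosure_iff]
      have hxA : (⟨x, hxm⟩ : F) ∈ A := by
        rw [hAm]
        exact isAlgebraic_algebraMap (⟨⟨x, hxm⟩, mem_adjoin_simple_self k _⟩ :
          adjoin k {(⟨x, hxm⟩ : F)})
      have h3 : (⊤ : IntermediateField k F) ≤ A := by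
        rw [← adjoin_top x z F hF hxm hzm, adjoin_le_iff]
        rintro w (rfl | hw)
        · exact hxA
        · rw [Set.mem_singleton_iff.1 hw]
          have h4 : (⟨z, hzm⟩ : F) ^ 2 ∈ A := by
            have h5 : (⟨z, hzm⟩ : F) ^ 2 = aeval (⟨x, hxm⟩ : F) f := by
              apply Subtype.ext
              have h6 : ((aeval (⟨x, hxm⟩ : F) f : F) : L) = aeval x f :=
                (aeval_algebraMap_apply L (⟨x, hxm⟩ : F) f).symm
              rw [h6, ← hxz]
              rfl
            rw [h5]
            rw [aeval_eq_sum_range]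
            exact sum_mem fun i _ => A.smul_mem (pow_mem hxA i)
          rw [SetLike.mem_coe, hAm]
          rw [hAm] at h4
          exact h4.of_pow (by norm_num)
      exact ⟨fun w => (hAm w).1 (h3 trivial)⟩
    have h3 : IsTranscendenceBasis k (fun _ : Unit => (⟨x, hxm⟩ : F)) := by
      rw [h1.isTranscendenceBasis_iff_isAlgebraic, Set.range_const]
      exact isAlgebraic_adjoin_iff_top.1 h2
    have h4 := h3.cardinalMk_eq_trdeg
    rw [← h4]
    simp

/-- **Products of curves of genus one.** -/
theorem prod_num {e : ℕ} (he : Algebra.trdeg k L = e) {x z : Fin e → L}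
    (hx : ∀ i, Transcendental k (x i)) {f : Fin e → k[X]} (hfs : ∀ i, (f i).Separable)
    (hd : ∀ i, (f i).natDegree = 3 ∨ (f i).natDegree = 4)
    (hxz : ∀ i, z i ^ 2 = aeval (x i) (f i))
    (hgen : adjoin k (Set.range x ∪ Set.range z) = ⊤) : NumLe k L e (fun _ => False) 0 := by
  classical
  obtain ⟨F, hF⟩ : ∃ F : Fin e → IntermediateField k L, F = fun i => adjoin k {x i, z i} := ⟨_, rfl⟩
  have hff : ∀ i, IsFF k (F i) := fun i => by
    rw [hF]
    exact isFF_pair (hx i) (hxz i)
  have hsup : ⨆ i, F i = ⊤ := by
    rw [eq_top_iff, ← hgen, adjoin_le_iff]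
    have h1 : ∀ i, F i ≤ ⨆ i, F i := fun i => le_iSup F i
    rintro w (⟨i, rfl⟩ | ⟨i, rfl⟩)
    · refine h1 i ?_
      rw [hF]
      exact subset_adjoin _ _ (by simp)
    · refine h1 i ?_
      rw [hF]
      exact subset_adjoin _ _ (by simp)
  have hcan : ∀ i, canDeg k (F i) = 0 := by
    intro i
    have hxm : x i ∈ F i := by
      rw [hF]
      exact subset_adjoin _ _ (by simp)
    have hzm : z i ∈ F i := by
      rw [hF]
      exact subset_adjoin _ _ (by simp)
    refine canDeg_zero (x := (⟨x i, hxm⟩ : F i)) (y := ⟨z i, hzm⟩) ?_ (hfs i) (hd i) ?_ ?_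
    · intro h
      apply hx i
      have := h.algebraMap (A := L)
      exact this
    · apply Subtype.ext
      have h1 : ((aeval (⟨x i, hxm⟩ : F i) (f i) : F i) : L) = aeval (x i) (f i) := by
        have := aeval_algebraMap_apply L (⟨x i, hxm⟩ : F i) (f i)
        exact this.symm
      rw [h1, ← hxz i]
      rfl
    · exact adjoin_top (x i) (z i) (F i) (by rw [hF]) hxm hzm
  have h1 := num_le (K := L) (E0 := fun i => F i) e he F hsup (fun _ _ => False) (fun _ => False)
    (fun v => by simp) (fun i => by
      have : UB F (E0 := fun i => F i) (fun _ _ => False) i = ∅ := by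
        ext q
        simp [UB]
      rw [this]
      exact Set.finite_empty) (fun i => by
      have : UB F (E0 := fun i => F i) (fun _ _ => False) i = ∅ := by
        ext q
        simp [UB]
      unfold ld
      rw [this, hcan]
      simp)
  have h2 : (Finset.univ.filter fun i => 0 < ld F (E0 := fun i => F i) (fun _ _ => False) i).card
      = 0 := by
    rw [Finset.card_eq_zero, Finset.filter_eq_empty_iff]
    intro i _
    have : UB F (E0 := fun i => F i) (fun _ _ => False) i = ∅ := by
      ext q
      simp [UB]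
    unfold ld
    rw [this, hcan]
    simp
  rw [h2] at h1
  exact h1

end Pool.Agent.Q298.EF
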